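import Mathlib

/-!
# Two disjoint connected sets of points of a triangle cannot both touch all three sides

The points of the board of size `L` are the pairs `p` of natural numbers with `p.1 + p.2 ≤ L`. The
proof is by the reduction of the game of Y: the triangles `D, D + (1, 0), D + (0, 1)` are the points of
the board of size `L - 1`.
-/

set_option autoImplicit false

namespace Pool.Agent.H72.NT

/-- `p` is a vertex of the triangle `D, D + (1, 0), D + (0, 1)` -/
def inD (D p : ℕ × ℕ) : Prop := p = D ∨ p = (D.1 + 1, D.2) ∨ p = (D.1, D.2 + 1)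

/-- equal or neighbouring points -/
def adj (p q : ℕ × ℕ) : Prop := ∃ D, inD D p ∧ inD D q

/-- connected inside `A` -/
def Conn (A : ℕ × ℕ → Prop) : ℕ × ℕ → ℕ × ℕ → Prop :=
  Relation.ReflTransGen (fun p q => adj p q ∧ A q)

/-- `A` has a connected subset which touches all three sides of the board of size `L` -/
def Win (L : ℕ) (A : ℕ × ℕ → Prop) : Prop :=
  ∃ x y z : ℕ × ℕ, A x ∧ A y ∧ A z ∧ x.1 = 0 ∧ y.2 = 0 ∧ z.1 + z.2 = L ∧ Conn A x y ∧ Conn A x z

/-- the reduced set -/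
def red (A : ℕ × ℕ → Prop) (D : ℕ × ℕ) : Prop := ∃ p q, p ≠ q ∧ inD D p ∧ inD D q ∧ A p ∧ A q

lemma adj_of_inD (D E u : ℕ × ℕ) (h1 : inD D u) (h2 : inD E u) : adj D E := by
  obtain ⟨d1, d2⟩ := D
  obtain ⟨e1, e2⟩ := E
  obtain ⟨u1, u2⟩ := u
  unfold inD at h1 h2
  simp only [Prod.mk.injEq] at h1 h2
  unfold adj inD
  simp only [Prod.mk.injEq, Prod.exists]
  rcases h1 with ⟨a, b⟩ | ⟨a, b⟩ | ⟨a, b⟩ <;> rcases h2 with ⟨c, d⟩ | ⟨c, d⟩ | ⟨c, d⟩
  · exact ⟨u1, u2, by omega, by omega⟩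
  · exact ⟨e1, e2, by omega, by omega⟩
  · exact ⟨e1, e2, by omega, by omega⟩
  · exact ⟨d1, d2, by omega, by omega⟩
  · exact ⟨d1, d2, by omega, by omega⟩
  · exact ⟨d1, e2, by omega, by omega⟩
  · exact ⟨d1, d2, by omega, by omega⟩
  · exact ⟨e1, d2, by omega, by omega⟩
  · exact ⟨d1, d2, by omega, by omega⟩

lemma red_lt {L : ℕ} {A : ℕ × ℕ → Prop} (hA : ∀ p, A p → p.1 + p.2 ≤ L) {D : ℕ × ℕ}
    (h : red A D) : D.1 + D.2 + 1 ≤ L := by
  obtain ⟨p, q, hne, hp, hq, ap, aq⟩ := h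
  have h1 := hA p ap
  have h2 := hA q aq
  rcases hp with rfl | rfl | rfl
  · rcases hq with rfl | rfl | rfl
    · exact absurd rfl hne
    · simp only at h2
      omega
    · simp only at h2
      omega
  · simp only at h1
    omega
  · simp only at h1
    omega

lemma red_disj {A B : ℕ × ℕ → Prop} (h : ∀ p, A p → ¬ B p) (D : ℕ × ℕ) (h1 : red A D) :
    ¬ red B D := by
  rintro ⟨p', q', hne', hp', hq', bp, bq⟩
  obtain ⟨p, q, hne, hp, hq, ap, aq⟩ := h1
  have e1 : p ≠ p' := fun e => h p ap (e ▸ bp)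
  have e2 : p ≠ q' := fun e => h p ap (e ▸ bq)
  have e3 : q ≠ p' := fun e => h q aq (e ▸ bp)
  have e4 : q ≠ q' := fun e => h q aq (e ▸ bq)
  rcases hp with rfl | rfl | rfl <;> rcases hq with rfl | rfl | rfl <;>
    rcases hp' with rfl | rfl | rfl <;> rcases hq' with rfl | rfl | rfl <;>
    first
    | exact hne rfl
    | exact hne' rfl
    | exact e1 rfl
    | exact e2 rfl
    | exact e3 rfl
    | exact e4 rfl

lemma conn_red {A : ℕ × ℕ → Prop} {x D₀ : ℕ × ℕ} (hx : A x) (h0 : red A D₀) (hx0 : inD D₀ x)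
    {u : ℕ × ℕ} (h : Conn A x u) : ∃ D, red A D ∧ inD D u ∧ Conn (red A) D₀ D ∧ A u := by
  induction h with
  | refl => exact ⟨D₀, h0, hx0, Relation.ReflTransGen.refl, hx⟩
  | @tail u v _ huv ih =>
    obtain ⟨D, hD, hDu, hc, hu⟩ := ih
    obtain ⟨⟨E, hEu, hEv⟩, hv⟩ := huv
    by_cases hne : u = v
    · subst hne
      exact ⟨D, hD, hDu, hc, hv⟩
    · have hE : red A E := ⟨u, v, hne, hEu, hEv, hu, hv⟩
      exact ⟨E, hE, hEv, hc.tail ⟨adj_of_inD D E u hDu hEu, hE⟩, hv⟩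

lemma win_red {L : ℕ} {A : ℕ × ℕ → Prop} (hA : ∀ p, A p → p.1 + p.2 ≤ L + 1)
    (h : Win (L + 1) A) : Win L (red A) := by
  obtain ⟨x, y, z, ax, ay, az, hx, hy, hz, hxy, hxz⟩ := h
  have key : ∃ v, x ≠ v ∧ adj x v ∧ A v := by
    have aux : ∀ w, Conn A x w → x ≠ w → ∃ v, x ≠ v ∧ adj x v ∧ A v := by
      intro w hw
      induction hw with
      | refl => exact fun h => absurd rfl h
      | @tail u v _ huv ih =>
        intro hne
        by_cases hxu : x = u
        · subst hxu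
          exact ⟨v, hne, huv.1, huv.2⟩
        · exact ih hxu
    by_cases h1 : x = y
    · refine aux z hxz ?_
      rintro rfl
      rw [← h1] at hy
      omega
    · exact aux y hxy h1
  obtain ⟨v, hne, ⟨D₀, hD1, hD2⟩, av⟩ := key
  have hD₀ : red A D₀ := ⟨x, v, hne, hD1, hD2, ax, av⟩
  obtain ⟨Dy, hDy, hDy', cy, _⟩ := conn_red ax hD₀ hD1 hxy
  obtain ⟨Dz, hDz, hDz', cz, _⟩ := conn_red ax hD₀ hD1 hxz
  have l3 := red_lt hA hDz
  refine ⟨D₀, Dy, Dz, hD₀, hDy, hDz, ?_, ?_, ?_, cy, cz⟩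
  · rcases hD1 with rfl | rfl | rfl
    · exact hx
    · simp only at hx
      omega
    · exact hx
  · rcases hDy' with rfl | rfl | rfl
    · exact hy
    · exact hy
    · simp only at hy
      omega
  · rcases hDz' with rfl | rfl | rfl
    · omega
    · simp only at hz
      omega
    · simp only at hz
      omega

/-- **Uniqueness of the winner in the game of Y.** -/
theorem y_unique (L : ℕ) : ∀ A B : ℕ × ℕ → Prop, (∀ p, A p → p.1 + p.2 ≤ L) →
    (∀ p, B p → p.1 + p.2 ≤ L) → (∀ p, A p → ¬ B p) → Win L A → ¬ Win L B := by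
  induction L with
  | zero =>
    rintro A B hA hB hd ⟨x, _, _, ax, _⟩ ⟨x', _, _, bx, _⟩
    have h1 := hA x ax
    have h2 := hB x' bx
    have : x = x' := Prod.ext (by omega) (by omega)
    exact hd x ax (this ▸ bx)
  | succ L ih =>
    intro A B hA hB hd h1 h2
    exact ih (red A) (red B) (fun D h => by have := red_lt hA h; omega)
      (fun D h => by have := red_lt hB h; omega) (fun D h => red_disj hd D h)
      (win_red hA h1) (win_red hB h2)

end Pool.Agent.H72.NT
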