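import Pool.Agent.H72.NT.Sums
import Pool.Agent.H72.NT.YGame

/-!
# A function on a triangle of lattice points, and the number of the triangles with nonzero sum
-/

set_option autoImplicit false

namespace Pool.Agent.H72.NT

open Finset

/-- the sums over the triangles `(i, j), (i - 1, j), (i, j - 1)` -/
def TG (G : ℕ → ℕ → ℚ) : ℕ → ℕ → ℚ
  | 0, 0 => G 0 0
  | i + 1, 0 => G (i + 1) 0 + G i 0
  | 0, j + 1 => G 0 (j + 1) + G 0 j
  | i + 1, j + 1 => G (i + 1) (j + 1) + G i (j + 1) + G (i + 1) j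

lemma adj_symm {p q : ℕ × ℕ} (h : adj p q) : adj q p := by
  obtain ⟨D, h1, h2⟩ := h
  exact ⟨D, h2, h1⟩

lemma conn_symm {A : ℕ × ℕ → Prop} {p u : ℕ × ℕ} (hp : A p) (h : Conn A p u) : Conn A u p ∧ A u := by
  induction h with
  | refl => exact ⟨Relation.ReflTransGen.refl, hp⟩
  | @tail u v _ huv ih =>
    exact ⟨Relation.ReflTransGen.head ⟨adj_symm huv.1, ih.2⟩ ih.1, huv.2⟩

/-- indicator of the nonzero values -/
def ind (x : ℚ) : ℤ := by classical exact if x ≠ 0 then 1 else 0

lemma ind_of_ne {x : ℚ} (h : x ≠ 0) : ind x = 1 := by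
  unfold ind
  rw [if_pos h]

lemma ind_zero : ind 0 = 0 := by
  unfold ind
  rw [if_neg (by simp)]

lemma ind_nonneg (x : ℚ) : 0 ≤ ind x := by
  by_cases h : x = 0
  · rw [h, ind_zero]
  · rw [ind_of_ne h]
    norm_num

lemma line_two (M : ℕ) (g t : ℕ → ℚ) (hg : ∀ j, g j ≠ 0 → j ≤ M) (hne : ∃ j, g j ≠ 0)
    (h0 : t 0 = g 0) (h1 : ∀ j, j ≤ M → t (j + 1) = g (j + 1) + g j) :
    2 ≤ ∑ j ∈ range (M + 2), ind (t j) := by
  classical
  -- the first nonzero value
  obtain ⟨a, ha, hmin⟩ : ∃ a, g a ≠ 0 ∧ ∀ j < a, g j = 0 :=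
    ⟨Nat.find hne, Nat.find_spec hne, fun j hj => by
      by_contra h
      exact Nat.find_min hne hj h⟩
  have hne' : ∃ k, g (M - k) ≠ 0 := by
    obtain ⟨j, hj⟩ := hne
    have := hg j hj
    exact ⟨M - j, by rwa [show M - (M - j) = j by omega]⟩
  -- the last nonzero value
  obtain ⟨b, hb, hbM, hmax⟩ : ∃ b, g b ≠ 0 ∧ b ≤ M ∧ ∀ j, b < j → g j = 0 := by
    have h1 := Nat.find_spec hne'
    refine ⟨M - Nat.find hne', h1, by omega, fun j hj => ?_⟩
    by_contra h
    have hjM := hg j h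
    have : M - j < Nat.find hne' := by omega
    exact Nat.find_min hne' this (by rwa [show M - (M - j) = j by omega])
  have hab : a ≤ b := by
    by_contra h
    exact ha (hmax a (by omega))
  have ta : t a ≠ 0 := by
    rcases a with _ | a
    · rwa [h0]
    · rw [h1 a (by omega), hmin a (by omega), add_zero]
      exact ha
  have tb : t (b + 1) ≠ 0 := by
    rw [h1 b hbM, hmax (b + 1) (by omega), zero_add]
    exact hb
  have hsub : ({a, b + 1} : Finset ℕ) ⊆ range (M + 2) := by
    intro x hx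
    rw [Finset.mem_insert, Finset.mem_singleton] at hx
    rw [Finset.mem_range]
    omega
  calc (2 : ℤ) = ∑ j ∈ ({a, b + 1} : Finset ℕ), ind (t j) := by
        rw [Finset.sum_pair (by omega), ind_of_ne ta, ind_of_ne tb]
        norm_num
    _ ≤ _ := Finset.sum_le_sum_of_subset_of_nonneg hsub fun j _ _ => ind_nonneg _

/-- a sign with a given pattern at the zeros -/
def sg (x : ℚ) (e : ℤ) : ℤ := by classical exact if 0 < x then 1 else if x < 0 then -1 else e

lemma sg_pos {x : ℚ} (e : ℤ) (h : 0 < x) : sg x e = 1 := by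
  unfold sg
  rw [if_pos h]

lemma sg_neg {x : ℚ} (e : ℤ) (h : x < 0) : sg x e = -1 := by
  unfold sg
  rw [if_neg (by linarith), if_pos h]

lemma sg_zero (e : ℤ) : sg 0 e = e := by
  unfold sg
  rw [if_neg (lt_irrefl _), if_neg (lt_irrefl _)]

lemma sg_pm (x : ℚ) {e : ℤ} (he : e = 1 ∨ e = -1) : sg x e = 1 ∨ sg x e = -1 := by
  rcases lt_trichotomy x 0 with h | h | h
  · exact Or.inr (sg_neg e h)
  · rw [h, sg_zero]
    exact he
  · exact Or.inl (sg_pos e h)

lemma pm_three {a b c : ℤ} (ha : a = 1 ∨ a = -1) (hb : b = 1 ∨ b = -1) (hc : c = 1 ∨ c = -1) :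
    a * b + a * c + b * c ≤ 3 := by
  rcases ha with rfl | rfl <;> rcases hb with rfl | rfl <;> rcases hc with rfl | rfl <;> norm_num

/-- three numbers with sum zero, not all zero, do not have the same signs -/
lemma sg_three {x y z : ℚ} {e f g : ℤ} (he : e = 1 ∨ e = -1) (hf : f = 1 ∨ f = -1)
    (hg : g = 1 ∨ g = -1) (h : x + y + z = 0) (hne : ¬ (x = 0 ∧ y = 0 ∧ z = 0)) :
    sg x e * sg y f + sg x e * sg z g + sg y f * sg z g ≤ -1 := by
  have key : ∃ s : ℤ, (∃ w : ℤ, w = sg x e ∨ w = sg y f ∨ w = sg z g) := ⟨0, sg x e, Or.inl rfl⟩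
  have h1 := sg_pm x he
  have h2 := sg_pm y hf
  have h3 := sg_pm z hg
  by_contra hc
  push Not at hc
  have hall : (sg x e = 1 ∧ sg y f = 1 ∧ sg z g = 1) ∨ (sg x e = -1 ∧ sg y f = -1 ∧ sg z g = -1) := by
    rcases h1 with a | a <;> rcases h2 with b | b <;> rcases h3 with c | c <;>
      rw [a, b, c] at hc <;> norm_num at hc <;> simp [a, b, c]
  rcases hall with ⟨a, b, c⟩ | ⟨a, b, c⟩
  · have hx : 0 ≤ x := by
      by_contra hx
      rw [sg_neg e (not_le.1 hx)] at a
      norm_num at a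
    have hy : 0 ≤ y := by
      by_contra hx
      rw [sg_neg f (not_le.1 hx)] at b
      norm_num at b
    have hz : 0 ≤ z := by
      by_contra hx
      rw [sg_neg g (not_le.1 hx)] at c
      norm_num at c
    exact hne ⟨by linarith, by linarith, by linarith⟩
  · have hx : x ≤ 0 := by
      by_contra hx
      rw [sg_pos e (not_le.1 hx)] at a
      norm_num at a
    have hy : y ≤ 0 := by
      by_contra hx
      rw [sg_pos f (not_le.1 hx)] at b
      norm_num at b
    have hz : z ≤ 0 := by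
      by_contra hx
      rw [sg_pos g (not_le.1 hx)] at c
      norm_num at c
    exact hne ⟨by linarith, by linarith, by linarith⟩

lemma pm_two {a b : ℤ} (ha : a = 1 ∨ a = -1) (hb : b = 1 ∨ b = -1) : a * b ≤ 1 := by
  rcases ha with rfl | rfl <;> rcases hb with rfl | rfl <;> norm_num

lemma sg_two {x y : ℚ} (e f : ℤ) (h : x + y = 0) (hne : x ≠ 0) : sg x e * sg y f ≤ -1 := by
  rcases lt_or_gt_of_ne hne with h1 | h1
  · rw [sg_neg e h1, sg_pos f (by linarith)]
    norm_num
  · rw [sg_pos e h1, sg_neg f (by linarith)]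
    norm_num

lemma pow_pm (k : ℕ) : (-1 : ℤ) ^ k = 1 ∨ (-1 : ℤ) ^ k = -1 := neg_one_pow_eq_or ℤ k

lemma pow_sq (k : ℕ) : (-1 : ℤ) ^ k * (-1 : ℤ) ^ k = 1 := by
  rcases pow_pm k with h | h <;> rw [h] <;> norm_num

lemma aux_sub {i N : ℕ} (h : i < N + 1) : i + 1 + (N - i) = N + 1 := by omega

/-- **The combinatorial theorem.** -/
theorem comb (N : ℕ) (G : ℕ → ℕ → ℚ) (hsupp : ∀ i j, G i j ≠ 0 → i + j ≤ N + 1)
    (hx : ∃ j, G 0 j ≠ 0) (hy : ∃ i, G i 0 ≠ 0) (hz : ∃ i j, i + j = N + 1 ∧ G i j ≠ 0)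
    (hconn : ∀ p q : ℕ × ℕ, G p.1 p.2 ≠ 0 → G q.1 q.2 ≠ 0 →
      Conn (fun p => G p.1 p.2 ≠ 0) p q) :
    (N + 7 : ℤ) ≤ 2 * S (N + 3) (fun i j => ind (TG G i j)) := by
  classical
  set Z : ℕ × ℕ → Prop := fun p => p.1 + p.2 ≤ N + 1 ∧ G p.1 p.2 = 0 with hZ
  set T0 : ℕ × ℕ → Prop := fun p => ∃ u, Conn Z p u ∧ Z u ∧ u.1 = 0 with hT0
  set T1 : ℕ × ℕ → Prop := fun p => ∃ u, Conn Z p u ∧ Z u ∧ u.2 = 0 with hT1
  set T2 : ℕ × ℕ → Prop := fun p => ∃ u, Conn Z p u ∧ Z u ∧ u.1 + u.2 = N + 1 with hT2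
  -- no component of `Z` touches all three sides
  have hno : ∀ p, Z p → T0 p → T1 p → ¬ T2 p := by
    rintro p hp ⟨x, cx, zx, ex⟩ ⟨y, cy, zy, ey⟩ ⟨z, cz, zz, ez⟩
    have hA : Win (N + 1) (fun p => G p.1 p.2 ≠ 0) := by
      obtain ⟨jx, hjx⟩ := hx
      obtain ⟨iy, hiy⟩ := hy
      obtain ⟨iz, jz, hs, hz⟩ := hz
      exact ⟨(0, jx), (iy, 0), (iz, jz), hjx, hiy, hz, rfl, rfl, hs, hconn (0, jx) (iy, 0) hjx hiy,
        hconn (0, jx) (iz, jz) hjx hz⟩
    refine y_unique (N + 1) _ Z (fun p hp => hsupp _ _ hp) (fun p hp => hp.1)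
      (fun p h1 h2 => h1 h2.2) hA ?_
    have c0 := (conn_symm hp cx).1
    exact ⟨x, y, z, zx, zy, zz, ex, ey, ez, c0.trans cy, c0.trans cz⟩
  -- neighbouring points have the same types
  have htr : ∀ p q, Z p → Z q → adj p q → (T0 p → T0 q) ∧ (T1 p → T1 q) ∧ (T2 p → T2 q) := by
    intro p q hp hq hpq
    have c : Conn Z q p := Relation.ReflTransGen.single ⟨adj_symm hpq, hp⟩
    refine ⟨?_, ?_, ?_⟩
    · rintro ⟨u, cu, zu, eu⟩
      exact ⟨u, c.trans cu, zu, eu⟩
    · rintro ⟨u, cu, zu, eu⟩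
      exact ⟨u, c.trans cu, zu, eu⟩
    · rintro ⟨u, cu, zu, eu⟩
      exact ⟨u, c.trans cu, zu, eu⟩
  set pt : ℕ → ℕ → ℤ := fun i j =>
    if T0 (i, j) then (if T1 (i, j) then (-1) ^ (i + j) else (-1) ^ j) else (-1) ^ i with hpt
  have hptpm : ∀ i j, pt i j = 1 ∨ pt i j = -1 := by
    intro i j
    simp only [hpt]
    split_ifs
    · exact pow_pm _
    · exact pow_pm _
    · exact pow_pm _
  set s : ℕ → ℕ → ℤ := fun i j => sg (G i j) (pt i j) with hs
  have hspm : ∀ i j, s i j = 1 ∨ s i j = -1 := fun i j => sg_pm _ (hptpm i j)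
  have hcount := count N s (fun i j => ind (TG G i j)) hspm ?_ ?_ ?_ ?_
  · -- the sides
    have l0 := line_two (N + 1) (fun i => G i 0) (fun i => TG G i 0)
      (fun j hj => by have := hsupp j 0 hj; omega) hy rfl (fun j _ => rfl)
    have l1 := line_two (N + 1) (fun j => G 0 j) (fun j => TG G 0 j)
      (fun j hj => by have := hsupp 0 j hj; omega) hx rfl (fun j _ => rfl)
    have l2 := line_two (N + 1) (fun i => if i ≤ N + 1 then G i (N + 1 - i) else 0)
      (fun i => TG G i (N + 2 - i)) (fun j hj => by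
        by_contra hc
        exact hj (by simp [hc])) ?_ ?_ ?_
    · rw [S_a (N + 2), S_b (N + 1) (fun i j => ind (TG G i (j + 1))),
        S_c N (fun i j => ind (TG G (i + 1) (j + 1)))]
      rw [Finset.sum_range_succ', Finset.sum_range_succ] at l0 l1 l2
      rw [Finset.sum_range_succ' (fun i => ind (TG G i 0)) (N + 2),
        Finset.sum_range_succ (fun i => ind (TG G (i + 1) 0)) (N + 1),
        Finset.sum_range_succ (fun j => ind (TG G 0 (j + 1))) (N + 1)]
      have e2 : ∑ i ∈ range (N + 1), ind (TG G (i + 1) (N + 2 - (i + 1))) =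
          ∑ i ∈ range (N + 1), ind (TG G (i + 1) (N - i + 1)) := by
        refine Finset.sum_congr rfl fun i hi => ?_
        have := Finset.mem_range.1 hi
        rw [show N + 2 - (i + 1) = N - i + 1 by omega]
      rw [e2] at l2
      simp only [show N + 2 - (N + 1 + 1) = 0 by omega, Nat.sub_zero] at l0 l1 l2 ⊢
      linarith
    · obtain ⟨i, j, hij, hne⟩ := hz
      refine ⟨i, ?_⟩
      have : i ≤ N + 1 := by omega
      simp only [this, if_true, show N + 1 - i = j by omega]
      exact hne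
    · simp only [Nat.sub_zero, Nat.zero_le, if_true]
      change G 0 (N + 2) + G 0 (N + 1) = _
      have : G 0 (N + 2) = 0 := by
        by_contra h
        have := hsupp 0 (N + 2) h
        omega
      rw [this, zero_add]
    · intro i hi
      rcases Nat.lt_or_ge i (N + 1) with h | h
      · simp only [hi, if_true, show i + 1 ≤ N + 1 by omega]
        rw [show N + 2 - (i + 1) = (N - i) + 1 by omega, show N + 1 - i = (N - i) + 1 by omega,
          show N + 1 - (i + 1) = N - i by omega]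
        change G (i + 1) (N - i + 1) + G i (N - i + 1) + G (i + 1) (N - i) = _
        have : G (i + 1) (N - i + 1) = 0 := by
          by_contra h'
          have := hsupp _ _ h'
          omega
        rw [this]
        ring
      · have hi' : i = N + 1 := by omega
        subst hi'
        simp only [show ¬ (N + 1 + 1 ≤ N + 1) by omega, if_false, le_refl, if_true, Nat.sub_self,
          show N + 2 - (N + 1 + 1) = 0 by omega, zero_add]
        change G (N + 1 + 1) 0 + G (N + 1) 0 = _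
        have : G (N + 1 + 1) 0 = 0 := by
          by_contra h'
          have := hsupp _ _ h'
          omega
        rw [this, zero_add]
  · -- interior triangles
    intro i j hij
    by_cases hT : TG G (i + 1) (j + 1) = 0
    · rw [hT, ind_zero]
      have hsum : G (i + 1) (j + 1) + G i (j + 1) + G (i + 1) j = 0 := hT
      by_cases hz0 : G (i + 1) (j + 1) = 0 ∧ G i (j + 1) = 0 ∧ G (i + 1) j = 0
      · obtain ⟨z1, z2, z3⟩ := hz0
        have Z1 : Z (i + 1, j + 1) := ⟨by simp only; omega, z1⟩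
        have Z2 : Z (i, j + 1) := ⟨by simp only; omega, z2⟩
        have Z3 : Z (i + 1, j) := ⟨by simp only; omega, z3⟩
        have a12 : adj (i + 1, j + 1) (i, j + 1) := ⟨(i, j + 1), Or.inr (Or.inl rfl), Or.inl rfl⟩
        have a13 : adj (i + 1, j + 1) (i + 1, j) := ⟨(i + 1, j), Or.inr (Or.inr rfl), Or.inl rfl⟩
        have f12 := htr _ _ Z1 Z2 a12
        have f21 := htr _ _ Z2 Z1 (adj_symm a12)
        have f13 := htr _ _ Z1 Z3 a13
        have f31 := htr _ _ Z3 Z1 (adj_symm a13)
        have E0 : T0 (i, j + 1) ↔ T0 (i + 1, j + 1) := ⟨f21.1, f12.1⟩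
        have E0' : T0 (i + 1, j) ↔ T0 (i + 1, j + 1) := ⟨f31.1, f13.1⟩
        have E1 : T1 (i, j + 1) ↔ T1 (i + 1, j + 1) := ⟨f21.2.1, f12.2.1⟩
        have E1' : T1 (i + 1, j) ↔ T1 (i + 1, j + 1) := ⟨f31.2.1, f13.2.1⟩
        simp only [hs, z1, z2, z3, sg_zero, hpt, E0, E0', E1, E1']
        split_ifs
        · have h1 : (-1 : ℤ) ^ (i + 1 + (j + 1)) = (-1) ^ (i + j) := by
            rw [show i + 1 + (j + 1) = i + j + 2 by ring, pow_add]
            norm_num
          have h2 : (-1 : ℤ) ^ (i + (j + 1)) = -(-1) ^ (i + j) := by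
            rw [show i + (j + 1) = i + j + 1 by ring, pow_succ]
            ring
          have h3 : (-1 : ℤ) ^ (i + 1 + j) = -(-1) ^ (i + j) := by
            rw [show i + 1 + j = i + j + 1 by ring, pow_succ]
            ring
          have := pow_sq (i + j)
          rw [h1, h2, h3]
          nlinarith
        · have := pow_sq j
          simp only [pow_succ]
          nlinarith
        · have := pow_sq i
          simp only [pow_succ]
          nlinarith
      · have := sg_three (hptpm (i + 1) (j + 1)) (hptpm i (j + 1)) (hptpm (i + 1) j) hsum hz0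
        simp only [hs]
        linarith
    · rw [ind_of_ne hT]
      have := pm_three (hspm (i + 1) (j + 1)) (hspm i (j + 1)) (hspm (i + 1) j)
      linarith
  · -- the side `j = 0`
    intro i hi
    by_cases hT : TG G (i + 1) 0 = 0
    · rw [hT, ind_zero]
      have hsum : G (i + 1) 0 + G i 0 = 0 := hT
      by_cases hz0 : G i 0 = 0
      · have hz1 : G (i + 1) 0 = 0 := by linarith
        have Z1 : Z (i + 1, 0) := ⟨by simp only; omega, hz1⟩
        have Z2 : Z (i, 0) := ⟨by simp only; omega, hz0⟩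
        have a12 : adj (i + 1, 0) (i, 0) := ⟨(i, 0), Or.inr (Or.inl rfl), Or.inl rfl⟩
        have f12 := htr _ _ Z1 Z2 a12
        have f21 := htr _ _ Z2 Z1 (adj_symm a12)
        have E0 : T0 (i, 0) ↔ T0 (i + 1, 0) := ⟨f21.1, f12.1⟩
        have t1 : T1 (i + 1, 0) := ⟨(i + 1, 0), Relation.ReflTransGen.refl, Z1, rfl⟩
        have t1' : T1 (i, 0) := ⟨(i, 0), Relation.ReflTransGen.refl, Z2, rfl⟩
        simp only [hs, hz0, hz1, sg_zero, hpt, E0, t1, t1', if_true, add_zero]
        have := pow_sq i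
        split_ifs
        · rw [pow_succ]
          nlinarith
        · rw [pow_succ]
          nlinarith
      · have := sg_two (pt i 0) (pt (i + 1) 0) (by linarith : G i 0 + G (i + 1) 0 = 0) hz0
        simp only [hs]
        linarith
    · rw [ind_of_ne hT]
      have := pm_two (hspm i 0) (hspm (i + 1) 0)
      linarith
  · -- the side `i = 0`
    intro j hj
    by_cases hT : TG G 0 (j + 1) = 0
    · rw [hT, ind_zero]
      have hsum : G 0 (j + 1) + G 0 j = 0 := hT
      by_cases hz0 : G 0 j = 0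
      · have hz1 : G 0 (j + 1) = 0 := by linarith
        have Z1 : Z (0, j + 1) := ⟨by simp only; omega, hz1⟩
        have Z2 : Z (0, j) := ⟨by simp only; omega, hz0⟩
        have a12 : adj (0, j + 1) (0, j) := ⟨(0, j), Or.inr (Or.inr rfl), Or.inl rfl⟩
        have f12 := htr _ _ Z1 Z2 a12
        have f21 := htr _ _ Z2 Z1 (adj_symm a12)
        have E1 : T1 (0, j) ↔ T1 (0, j + 1) := ⟨f21.2.1, f12.2.1⟩
        have t1 : T0 (0, j + 1) := ⟨(0, j + 1), Relation.ReflTransGen.refl, Z1, rfl⟩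
        have t1' : T0 (0, j) := ⟨(0, j), Relation.ReflTransGen.refl, Z2, rfl⟩
        simp only [hs, hz0, hz1, sg_zero, hpt, E1, t1, t1', if_true, zero_add]
        have := pow_sq j
        split_ifs
        · rw [pow_succ]
          nlinarith
        · rw [pow_succ]
          nlinarith
      · have := sg_two (pt 0 j) (pt 0 (j + 1)) (by linarith : G 0 j + G 0 (j + 1) = 0) hz0
        simp only [hs]
        linarith
    · rw [ind_of_ne hT]
      have := pm_two (hspm 0 j) (hspm 0 (j + 1))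
      linarith
  · -- the third side
    intro i hi
    by_cases hT : TG G (i + 1) (N - i + 1) = 0
    · rw [hT, ind_zero]
      have hz3 : G (i + 1) (N - i + 1) = 0 := by
        by_contra h'
        have := hsupp _ _ h'
        omega
      have hsum : G (i + 1) (N - i + 1) + G i (N - i + 1) + G (i + 1) (N - i) = 0 := hT
      rw [hz3, zero_add] at hsum
      by_cases hz0 : G i (N - i + 1) = 0
      · have hz1 : G (i + 1) (N - i) = 0 := by linarith
        have Z1 : Z (i + 1, N - i) := ⟨by simp only; omega, hz1⟩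
        have Z2 : Z (i, N - i + 1) := ⟨by simp only; omega, hz0⟩
        have a12 : adj (i + 1, N - i) (i, N - i + 1) :=
          ⟨(i, N - i), Or.inr (Or.inl rfl), Or.inr (Or.inr rfl)⟩
        have f12 := htr _ _ Z1 Z2 a12
        have f21 := htr _ _ Z2 Z1 (adj_symm a12)
        have E0 : T0 (i, N - i + 1) ↔ T0 (i + 1, N - i) := ⟨f21.1, f12.1⟩
        have E1 : T1 (i, N - i + 1) ↔ T1 (i + 1, N - i) := ⟨f21.2.1, f12.2.1⟩
        have e2 : i + 1 + (N - i) = N + 1 := aux_sub hi
        have t2 : T2 (i + 1, N - i) :=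
          ⟨(i + 1, N - i), Relation.ReflTransGen.refl, Z1, e2⟩
        have hnot := hno _ Z1
        simp only [hs, hz0, hz1, sg_zero, hpt, E0, E1]
        have := pow_sq i
        have := pow_sq (N - i)
        split_ifs with q1 q2
        · exact absurd t2 (hnot q1 q2)
        · rw [pow_succ]
          nlinarith
        · rw [pow_succ]
          nlinarith
      · have := sg_two (pt i (N - i + 1)) (pt (i + 1) (N - i)) hsum hz0
        simp only [hs]
        linarith
    · rw [ind_of_ne hT]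
      have := pm_two (hspm i (N - i + 1)) (hspm (i + 1) (N - i))
      linarith

end Pool.Agent.H72.NT
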