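import Pool.Agent.H72.NT.IntV

/-!
# Relations between products of powers of three polynomials with `A + B + C = 0`
-/

set_option autoImplicit false

namespace Pool.Agent.H72.NT

open Finset Polynomial UniqueFactorizationMonoid

/-- a partial sum -/
noncomputable def PT {K ι : Type*} [Field K] (c : ι → K) (α γ : ι → ℕ) (T : Finset ι) : K[X] :=
  ∑ k ∈ T, C (c k) * X ^ α k * (-1 - X) ^ γ k

lemma PT_swap {K ι : Type*} [Field K] (c : ι → K) (α γ : ι → ℕ) (T : Finset ι) :
    (PT c α γ T).comp (-1 - X) = PT c γ α T := by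
  unfold PT
  rw [Polynomial.sum_comp]
  refine Finset.sum_congr rfl fun k _ => ?_
  rw [mul_comp, mul_comp, C_comp, pow_comp, pow_comp, X_comp, sub_comp, X_comp, neg_comp, one_comp]
  ring

lemma lowest {K ι : Type*} [Field K] [Fintype ι] [Nonempty ι] (c : ι → K) (α γ : ι → ℕ)
    (hsum : PT c α γ univ = 0)
    (hsub : ∀ T : Finset ι, T.Nonempty → T ≠ univ → PT c α γ T ≠ 0)
    (hconst : ∀ k k', α k = α k' → γ k = γ k') : ∀ k k', α k = α k' := by
  classical
  obtain ⟨k0, -, hmin⟩ := Finset.exists_min_image Finset.univ α Finset.univ_nonempty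
  set T := Finset.univ.filter (fun k => α k = α k0) with hT
  have h1 := congrArg (fun P => Polynomial.coeff P (α k0)) hsum
  simp only [PT, finsetSum_coeff, coeff_zero] at h1
  have h2 : ∀ k, (C (c k) * X ^ α k * (-1 - X) ^ γ k : K[X]).coeff (α k0) =
      if α k = α k0 then c k * (-1) ^ γ k0 else 0 := by
    intro k
    rw [mul_assoc, coeff_C_mul, coeff_X_pow_mul']
    by_cases h : α k = α k0
    · rw [if_pos h.le, if_pos h, h, Nat.sub_self, hconst k k0 h, coeff_zero_eq_eval_zero]
      simp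
    · have := hmin k (Finset.mem_univ k)
      rw [if_neg (by omega), if_neg h, mul_zero]
  rw [Finset.sum_congr rfl fun k _ => h2 k, ← Finset.sum_filter, ← Finset.sum_mul] at h1
  have h3 : ∑ k ∈ T, c k = 0 := (mul_eq_zero.1 h1).resolve_right (pow_ne_zero _ (by norm_num))
  have h4 : PT c α γ T = 0 := by
    unfold PT
    have : ∀ k ∈ T, C (c k) * X ^ α k * (-1 - X) ^ γ k =
        C (c k) * (X ^ α k0 * (-1 - X) ^ γ k0 : K[X]) := fun k hk => by
      rw [hT, Finset.mem_filter] at hk
      rw [hk.2, hconst k k0 hk.2, mul_assoc]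
    rw [Finset.sum_congr rfl this, ← Finset.sum_mul, ← map_sum, h3, map_zero, zero_mul]
  have h5 : T = univ := by
    by_contra hne
    exact hsub T ⟨k0, by rw [hT, Finset.mem_filter]; exact ⟨Finset.mem_univ k0, rfl⟩⟩ hne h4
  have h6 : ∀ k, α k = α k0 := fun k => by
    have := Finset.mem_univ k
    rw [← h5, hT, Finset.mem_filter] at this
    exact this.2
  intro k k'
  rw [h6 k, h6 k']

lemma appear {K ι : Type*} [Field K] [Fintype ι] [Nonempty ι] (c : ι → K) (α β γ : ι → ℕ) (m : ℕ)
    (hdeg : ∀ k, α k + β k + γ k = m) (ha : ∃ k, α k = 0) (hb : ∃ k, β k = 0) (hc : ∃ k, γ k = 0)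
    (hsum : PT c α γ univ = 0)
    (hsub : ∀ T : Finset ι, T.Nonempty → T ≠ univ → PT c α γ T ≠ 0) (hm : m ≠ 0) :
    (∃ k, α k ≠ 0) ∧ (∃ k, β k ≠ 0) ∧ (∃ k, γ k ≠ 0) := by
  obtain ⟨ka, hka⟩ := ha
  obtain ⟨kb, hkb⟩ := hb
  obtain ⟨kc, hkc⟩ := hc
  refine ⟨?_, ?_, ?_⟩
  · by_contra h
    push Not at h
    have h1 := lowest c γ α (by rw [← PT_swap, hsum, zero_comp])
      (fun T h1 h2 h0 => hsub T h1 h2 (by
        rw [← PT_swap, h0, zero_comp])) (fun k k' _ => by rw [h k, h k'])
    have e1 := h1 kb kc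
    have e2 := hdeg kb
    have e3 := h kb
    omega
  · by_contra h
    push Not at h
    have h1 := lowest c α γ hsum hsub (fun k k' hk => by
      have e1 := hdeg k
      have e2 := hdeg k'
      have e3 := h k
      have e4 := h k'
      omega)
    have e1 := h1 kc ka
    have e2 := hdeg kc
    have e3 := h kc
    omega
  · by_contra h
    push Not at h
    have h1 := lowest c α γ hsum hsub (fun k k' _ => by rw [h k, h k'])
    have e1 := h1 kb ka
    have e2 := hdeg kb
    have e3 := h kb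
    omega

/-- the number of zeros of a polynomial and the degree of its radical -/
lemma radical_le {K : Type*} [Field K] [CharZero K] [IsAlgClosed K] [DecidableEq K] {g : K[X]}
    (hg : g ≠ 0) : (radical g).natDegree ≤ g.roots.toFinset.card := by
  have h1 : (radical g).Separable := PerfectField.separable_iff_squarefree.2 squarefree_radical
  have h2 : (radical g).natDegree = (radical g).roots.card :=
    (IsAlgClosed.splits (radical g)).natDegree_eq_card_roots
  rw [h2, ← Multiset.toFinset_card_of_nodup (nodup_roots h1)]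
  refine Finset.card_le_card fun x hx => ?_
  rw [Multiset.mem_toFinset] at hx ⊢
  rw [mem_roots radical_ne_zero] at hx
  rw [mem_roots hg]
  exact hx.dvd radical_dvd_self

/-- a polynomial relation of the quotient of two polynomials which is not a constant is trivial -/
lemma eq_zero_of_aeval_div {K : Type*} [Field K] [IsAlgClosed K] {A B : K[X]} (hB : B ≠ 0)
    (hAB : ∀ r, A ≠ C r * B) {P : K[X]}
    (h : aeval (algebraMap K[X] (FractionRing K[X]) A / algebraMap K[X] (FractionRing K[X]) B) P = 0) :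
    P = 0 := by
  by_contra hP
  set t := algebraMap K[X] (FractionRing K[X]) A / algebraMap K[X] (FractionRing K[X]) B with ht
  have h1 : IsIntegral K t := IsAlgebraic.isIntegral ⟨P, hP, h⟩
  have h2 : (minpoly K t).degree = 1 :=
    IsAlgClosed.degree_eq_one_of_irreducible K (minpoly.irreducible h1)
  obtain ⟨r, hr⟩ := minpoly.mem_range_of_degree_eq_one K t h2
  have hB' : algebraMap K[X] (FractionRing K[X]) B ≠ 0 := fun h0 =>
    hB ((IsFractionRing.injective K[X] (FractionRing K[X])) (by rw [h0, map_zero]))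
  rw [ht, eq_div_iff hB'] at hr
  refine hAB r ((IsFractionRing.injective K[X] (FractionRing K[X])) ?_)
  rw [map_mul, ← hr]
  congr 1

lemma aeval_PT {K ι : Type*} [Field K] {A B : K[X]} (hB : B ≠ 0) (c : ι → K) (α β γ : ι → ℕ) (m : ℕ)
    (hdeg : ∀ k, α k + β k + γ k = m) (T : Finset ι) :
    aeval (algebraMap K[X] (FractionRing K[X]) A / algebraMap K[X] (FractionRing K[X]) B)
      (PT c α γ T) * (algebraMap K[X] (FractionRing K[X]) B) ^ m =
      algebraMap K[X] (FractionRing K[X])
        (∑ k ∈ T, C (c k) * A ^ α k * B ^ β k * (-A - B) ^ γ k) := by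
  set L := FractionRing K[X]
  set a := algebraMap K[X] L A
  set b := algebraMap K[X] L B
  have hb : b ≠ 0 := fun h0 =>
    hB ((IsFractionRing.injective K[X] L) (by rw [map_zero]; exact h0))
  unfold PT
  rw [map_sum, map_sum, Finset.sum_mul]
  refine Finset.sum_congr rfl fun k _ => ?_
  simp only [map_mul, map_pow, map_sub, map_neg, map_one, aeval_X, aeval_C]
  change algebraMap K L (c k) * (a / b) ^ α k * (-1 - a / b) ^ γ k * b ^ m =
    algebraMap K[X] L (C (c k)) * a ^ α k * b ^ β k * (-a - b) ^ γ k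
  have h0 : algebraMap K[X] L (C (c k)) = algebraMap K L (c k) := by
    rw [IsScalarTower.algebraMap_apply K K[X] L]
    rfl
  have h1 : (a / b) ^ α k * b ^ α k = a ^ α k := by rw [← mul_pow, div_mul_cancel₀ _ hb]
  have h2 : (-1 - a / b) ^ γ k * b ^ γ k = (-a - b) ^ γ k := by
    rw [← mul_pow]
    congr 1
    rw [sub_mul, div_mul_cancel₀ _ hb]
    ring
  rw [← hdeg k, pow_add, pow_add, h0]
  calc algebraMap K L (c k) * (a / b) ^ α k * (-1 - a / b) ^ γ k * (b ^ α k * b ^ β k * b ^ γ k)
      = algebraMap K L (c k) * ((a / b) ^ α k * b ^ α k) * b ^ β k *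
        ((-1 - a / b) ^ γ k * b ^ γ k) := by ring
    _ = _ := by rw [h1, h2]

lemma natDegree_mon {K : Type*} [Field K] (A B D : K[X]) (c : K) (a b g : ℕ) :
    (C c * A ^ a * B ^ b * D ^ g).natDegree ≤ a * A.natDegree + b * B.natDegree + g * D.natDegree := by
  refine (natDegree_mul_le.trans (add_le_add (natDegree_mul_le.trans (add_le_add
    (natDegree_mul_le.trans (add_le_add (natDegree_C c).le natDegree_pow_le)) natDegree_pow_le))
    natDegree_pow_le)).trans ?_
  omega

/-- **Function fields.** -/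
theorem ff_main {K : Type*} [Field K] [CharZero K] [IsAlgClosed K] [DecidableEq K]
    {ι : Type*} [Fintype ι]
    (hn : 3 ≤ Fintype.card ι) (A B D : K[X]) (hABD : A + B + D = 0) (hco : IsCoprime A B)
    (c : ι → K) (α β γ : ι → ℕ) (m : ℕ) (hdeg : ∀ k, α k + β k + γ k = m) (f : ι → K[X])
    (hf : ∀ k, f k = C (c k) * A ^ α k * B ^ β k * D ^ γ k) (hsum : ∑ k, f k = 0)
    (hsub : ∀ T : Finset ι, T.Nonempty → T ≠ univ → ∑ k ∈ T, f k ≠ 0)
    (hcom : ¬ ∃ x, ∀ k, (f k).IsRoot x) (hnc : ∃ k, (f k).natDegree ≠ 0) (k : ι) :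
    (f k).natDegree ≤
      (2 * Fintype.card ι - 5) * ((∏ k, f k).roots.toFinset.card - 1) := by
  have : Nonempty ι := ⟨k⟩
  have hf0 : ∀ k, f k ≠ 0 := by
    intro k h0
    refine hsub {k} (Finset.singleton_nonempty k) ?_ (by simpa using h0)
    intro h
    have := congrArg Finset.card h
    rw [Finset.card_singleton, Finset.card_univ] at this
    omega
  have hD : D = -A - B := by linear_combination hABD
  -- the three polynomials are not all constant
  have hnu : ¬ (A.natDegree = 0 ∧ B.natDegree = 0 ∧ D.natDegree = 0) := by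
    rintro ⟨h1, h2, h3⟩
    obtain ⟨k, hk⟩ := hnc
    apply hk
    have := natDegree_mon A B D (c k) (α k) (β k) (γ k)
    rw [h1, h2, h3, ← hf k] at this
    omega
  have hDdeg : A.natDegree = 0 → B.natDegree = 0 → D.natDegree = 0 := by
    intro h1 h2
    have : D.natDegree ≤ max (-A).natDegree B.natDegree := by
      rw [hD]
      exact natDegree_sub_le _ _
    rw [natDegree_neg, h1, h2] at this
    simpa using this
  have hB0 : B ≠ 0 := by
    rintro rfl
    have h1 : IsUnit A := isCoprime_zero_right.1 hco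
    have h2 := natDegree_eq_zero_of_isUnit h1
    exact hnu ⟨h2, natDegree_zero, hDdeg h2 natDegree_zero⟩
  have hAB : ∀ r, A ≠ C r * B := by
    intro r h
    have h1 : IsUnit B := hco.symm.isUnit_of_dvd' dvd_rfl ⟨C r, by rw [h, mul_comm]⟩
    have h2 := natDegree_eq_zero_of_isUnit h1
    have h3 : A.natDegree = 0 := by
      have := natDegree_C_mul_le r B
      rw [← h, h2] at this
      omega
    exact hnu ⟨h3, h2, hDdeg h3 h2⟩
  have hA0 : A ≠ 0 := fun h => hAB 0 (by rw [h, C_0, zero_mul])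
  have hD0 : D ≠ 0 := fun h => hAB (-1) (by
    rw [h] at hABD
    rw [C_neg, C_1]
    linear_combination hABD)
  -- the common factor
  obtain ⟨α0, α', hα, kα⟩ := exists_min α
  obtain ⟨β0, β', hβ, kβ⟩ := exists_min β
  obtain ⟨γ0, γ', hγ, kγ⟩ := exists_min γ
  set d : K[X] := A ^ α0 * B ^ β0 * D ^ γ0 with hd
  set y : ι → K[X] := fun k => C (c k) * A ^ α' k * B ^ β' k * D ^ γ' k with hy
  have hfy : ∀ k, f k = d * y k := by
    intro k
    rw [hf, hα, hβ, hγ, hd, hy, pow_add, pow_add, pow_add]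
    ring
  have hdd : d.natDegree = 0 := by
    by_contra hne
    obtain ⟨x, hx⟩ := IsAlgClosed.exists_root d (fun h => hne (natDegree_eq_of_degree_eq_some h))
    exact hcom ⟨x, fun k => by rw [hfy k]; exact hx.dvd ⟨y k, rfl⟩⟩
  have hy0 : ∀ k, y k ≠ 0 := fun k h => hf0 k (by rw [hfy, h, mul_zero])
  have hd0 : d ≠ 0 := fun h => hf0 k (by rw [hfy, h, zero_mul])
  have hdegy : ∀ k, (f k).natDegree = (y k).natDegree := fun k => by
    rw [hfy, natDegree_mul hd0 (hy0 k), hdd, zero_add]
  set m' : ℕ := m - (α0 + β0 + γ0) with hm'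
  have hdeg' : ∀ k, α' k + β' k + γ' k = m' := by
    intro k
    have h1 := hdeg k
    have h2 := hα k
    have h3 := hβ k
    have h4 := hγ k
    omega
  have hT : ∀ T : Finset ι, ∑ k ∈ T, C (c k) * A ^ α' k * B ^ β' k * (-A - B) ^ γ' k = 0 ↔
      ∑ k ∈ T, f k = 0 := by
    intro T
    have h1 : ∑ k ∈ T, f k = d * ∑ k ∈ T, y k := by
      rw [Finset.mul_sum]
      exact Finset.sum_congr rfl fun k _ => hfy k
    rw [h1, mul_eq_zero, or_iff_right hd0, hy]
    simp only [hD]
  have hPT : ∀ T : Finset ι, PT c α' γ' T = 0 ↔ ∑ k ∈ T, f k = 0 := by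
    intro T
    have h1 := aeval_PT (A := A) hB0 c α' β' γ' m' hdeg' T
    have hB' : algebraMap K[X] (FractionRing K[X]) B ≠ 0 := fun h0 =>
      hB0 ((IsFractionRing.injective K[X] (FractionRing K[X])) (by rw [h0, map_zero]))
    constructor
    · intro h
      rw [h, map_zero, zero_mul] at h1
      rw [← hT]
      exact (IsFractionRing.injective K[X] (FractionRing K[X])) (by rw [← h1, map_zero])
    · intro h
      rw [(hT T).2 h, map_zero] at h1
      exact eq_zero_of_aeval_div hB0 hAB ((mul_eq_zero.1 h1).resolve_right (pow_ne_zero _ hB'))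
  have hm0 : m' ≠ 0 := by
    intro h0
    obtain ⟨k, hk⟩ := hnc
    apply hk
    have := natDegree_mon A B D (c k) (α' k) (β' k) (γ' k)
    have e := hdeg' k
    rw [hdegy k]
    have e1 : α' k = 0 := by omega
    have e2 : β' k = 0 := by omega
    have e3 : γ' k = 0 := by omega
    rw [e1, e2, e3, zero_mul, zero_mul, zero_mul] at this
    simp only [hy, e1, e2, e3]
    omega
  have hkey : m' + 5 ≤ 2 * Fintype.card ι :=
    main_K c α' β' γ' m' hdeg' kα kβ kγ ((hPT univ).2 hsum)
      (fun T h1 h2 h0 => hsub T h1 h2 ((hPT T).1 h0)) hn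
  obtain ⟨⟨k1, h1⟩, ⟨k2, h2⟩, ⟨k3, h3⟩⟩ := appear c α' β' γ' m' hdeg' kα kβ kγ ((hPT univ).2 hsum)
      (fun T h1 h2 h0 => hsub T h1 h2 ((hPT T).1 h0)) hm0
  -- the zeros
  set R := (∏ k, f k).roots.toFinset.card with hR
  have hprod : ∏ k, f k ≠ 0 := Finset.prod_ne_zero_iff.2 fun k _ => hf0 k
  have hrad : (radical (A * B * D)).natDegree ≤ R := by
    refine (radical_le (mul_ne_zero (mul_ne_zero hA0 hB0) hD0)).trans ?_
    refine Finset.card_le_card fun x hx => ?_
    rw [Multiset.mem_toFinset, mem_roots (mul_ne_zero (mul_ne_zero hA0 hB0) hD0), root_mul,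
      root_mul] at hx
    rw [Multiset.mem_toFinset, mem_roots hprod]
    have hdvd : ∀ k (E : K[X]), E.IsRoot x → E ∣ f k → (∏ k, f k).IsRoot x := fun k E hE hdvd =>
      (hE.dvd hdvd).dvd (Finset.dvd_prod_of_mem f (Finset.mem_univ k))
    rcases hx with (hx | hx) | hx
    · refine hdvd k1 A hx ?_
      rw [hf]
      exact ((dvd_pow_self A (by have := hα k1; omega)).mul_left _).mul_right _ |>.mul_right _
    · refine hdvd k2 B hx ?_
      rw [hf]
      exact ((dvd_pow_self B (by have := hβ k2; omega)).mul_left _).mul_right _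
    · refine hdvd k3 D hx ?_
      rw [hf]
      exact (dvd_pow_self D (by have := hγ k3; omega)).mul_left _
  have habc := Polynomial.abc hA0 hB0 hD0 hco hABD
  have hdegs : A.natDegree ≤ R - 1 ∧ B.natDegree ≤ R - 1 ∧ D.natDegree ≤ R - 1 := by
    rcases habc with ⟨e1, e2, e3⟩ | ⟨e1, e2, e3⟩
    · exact ⟨by omega, by omega, by omega⟩
    · exact absurd ⟨derivative_eq_zero.1 e1,
        derivative_eq_zero.1 e2,
        derivative_eq_zero.1 e3⟩ hnu
  obtain ⟨d1, d2, d3⟩ := hdegs
  calc (f k).natDegree = (y k).natDegree := hdegy k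
    _ ≤ α' k * A.natDegree + β' k * B.natDegree + γ' k * D.natDegree := natDegree_mon _ _ _ _ _ _ _
    _ ≤ α' k * (R - 1) + β' k * (R - 1) + γ' k * (R - 1) := by gcongr
    _ = m' * (R - 1) := by rw [← hdeg' k]; ring
    _ ≤ (2 * Fintype.card ι - 5) * (R - 1) := Nat.mul_le_mul_right _ (by omega)

end Pool.Agent.H72.NT
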