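import Pool.Agent.H72.NT.MainQ

/-!
# The theorem over a field of characteristic zero
-/

set_option autoImplicit false

namespace Pool.Agent.H72.NT

open Finset Polynomial

lemma coeff_term {K : Type*} [Field K] [CharZero K] (c : K) (a g e : ℕ) :
    (C c * X ^ a * (-1 - X) ^ g : K[X]).coeff e =
      ((X ^ a * (-1 - X) ^ g : ℚ[X]).coeff e) • c := by
  have : (X ^ a * (-1 - X) ^ g : K[X]) = (X ^ a * (-1 - X) ^ g : ℚ[X]).map (algebraMap ℚ K) := by
    simp
  rw [mul_assoc, coeff_C_mul, this, coeff_map, Algebra.smul_def, mul_comm]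

theorem main_K {K : Type*} [Field K] [CharZero K] {ι : Type*} [Fintype ι] (c : ι → K)
    (α β γ : ι → ℕ) (m : ℕ)
    (hdeg : ∀ k, α k + β k + γ k = m) (ha : ∃ k, α k = 0) (hb : ∃ k, β k = 0) (hc : ∃ k, γ k = 0)
    (hsum : ∑ k, C (c k) * X ^ α k * (-1 - X) ^ γ k = 0)
    (hsub : ∀ T : Finset ι, T.Nonempty → T ≠ univ →
      ∑ k ∈ T, C (c k) * X ^ α k * (-1 - X) ^ γ k ≠ 0)
    (hn : 3 ≤ Fintype.card ι) : m + 5 ≤ 2 * Fintype.card ι := by
  classical
  have hex : ∀ T : {T : Finset ι // T.Nonempty ∧ T ≠ univ},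
      ∃ e, (∑ k ∈ T.1, C (c k) * X ^ α k * (-1 - X) ^ γ k).coeff e ≠ 0 := by
    intro T
    by_contra h
    push Not at h
    exact hsub T.1 T.2.1 T.2.2 (Polynomial.ext fun e => by rw [h e, coeff_zero])
  choose e he using hex
  obtain ⟨φ, hφ⟩ := Module.exists_dual_forall_apply_ne_zero (K := ℚ)
    (fun T : {T : Finset ι // T.Nonempty ∧ T ≠ univ} =>
      (∑ k ∈ T.1, C (c k) * X ^ α k * (-1 - X) ^ γ k).coeff (e T)) he
  have key : ∀ (T : Finset ι) (e : ℕ),
      (∑ k ∈ T, C (φ (c k)) * X ^ α k * (-1 - X) ^ γ k : ℚ[X]).coeff e =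
        φ ((∑ k ∈ T, C (c k) * X ^ α k * (-1 - X) ^ γ k : K[X]).coeff e) := by
    intro T e
    rw [finsetSum_coeff, finsetSum_coeff, map_sum]
    refine Finset.sum_congr rfl fun k _ => ?_
    rw [coeff_term (c k), map_smul, mul_assoc, coeff_C_mul, smul_eq_mul, mul_comm]
  refine main_Q (fun k => φ (c k)) α β γ m hdeg ha hb hc ?_ ?_ hn
  · ext e
    rw [key, hsum, coeff_zero, map_zero, coeff_zero]
  · intro T h1 h2 h0
    apply hφ ⟨T, h1, h2⟩
    rw [← key, h0, coeff_zero]

/-- **Products of powers of two linear factors.** -/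
theorem two_zeros_prod {K : Type*} [Field K] [CharZero K] {ι : Type*} [Fintype ι]
    (hn : 3 ≤ Fintype.card ι) (p q : K) (hpq : p ≠ q) (c : ι → K) (a b : ι → ℕ)
    (hsum : ∑ k, C (c k) * (X - C p) ^ a k * (X - C q) ^ b k = 0)
    (hsub : ∀ T : Finset ι, T.Nonempty → T ≠ univ →
      ∑ k ∈ T, C (c k) * (X - C p) ^ a k * (X - C q) ^ b k ≠ 0)
    (ha : ∃ k, a k = 0) (hb : ∃ k, b k = 0) (k : ι) :
    a k + b k + 5 ≤ 2 * Fintype.card ι := by
  classical
  set s : K := p - q with hs
  have hs0 : s ≠ 0 := sub_ne_zero.2 hpq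
  have hne : (Finset.univ : Finset ι).Nonempty := ⟨k, Finset.mem_univ k⟩
  set m : ℕ := Finset.univ.sup' hne (fun k => a k + b k) with hm
  have hle : ∀ k, a k + b k ≤ m := fun k =>
    Finset.le_sup' (fun k => a k + b k) (Finset.mem_univ k)
  obtain ⟨k0, -, hk0⟩ := Finset.exists_mem_eq_sup' hne (fun k => a k + b k)
  have e1 : (X - C p : K[X]).comp (C p + C s * X) = C s * X := by
    simp
  have e2 : (X - C q : K[X]).comp (C p + C s * X) = C (-s) * (-1 - X) := by
    rw [sub_comp, X_comp, C_comp, hs]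
    simp only [map_sub, map_neg]
    ring
  have e3 : ∀ T : Finset ι, (∑ k ∈ T, C (c k) * (X - C p) ^ a k * (X - C q) ^ b k).comp
      (C p + C s * X) =
      ∑ k ∈ T, C (c k * s ^ a k * (-s) ^ b k) * X ^ a k * (-1 - X) ^ b k := by
    intro T
    rw [Polynomial.sum_comp]
    refine Finset.sum_congr rfl fun k _ => ?_
    rw [mul_comp, mul_comp, C_comp, pow_comp, pow_comp, e1, e2, mul_pow, mul_pow, C_mul, C_mul,
      C_pow, C_pow]
    ring
  have hdeg := main_K (fun k => c k * s ^ a k * (-s) ^ b k) a (fun k => m - (a k + b k)) b m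
    (fun k => by have := hle k; omega) ha ⟨k0, by omega⟩ hb
    (by rw [← e3, hsum, zero_comp])
    (fun T h1 h2 h0 => by
      rw [← e3, comp_eq_zero_iff] at h0
      rcases h0 with h0 | ⟨-, h0⟩
      · exact hsub T h1 h2 h0
      · have := congrArg (fun P => Polynomial.coeff P 1) h0
        simp only [coeff_add, coeff_C_succ, coeff_C_mul, coeff_X_one, mul_one, zero_add] at this
        exact hs0 this) hn
  have := hle k
  omega

/-- a polynomial over an algebraically closed field whose roots are `p` and `q` -/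
lemma eq_prod_of_roots {K : Type*} [Field K] [IsAlgClosed K] {p q : K} (hpq : p ≠ q) {f : K[X]}
    (hf : f ≠ 0) (h : ∀ x, f.IsRoot x → x = p ∨ x = q) :
    f = C f.leadingCoeff * (X - C p) ^ f.rootMultiplicity p * (X - C q) ^ f.rootMultiplicity q := by
  classical
  have h1 := (IsAlgClosed.splits f).eq_prod_roots
  rw [Finset.prod_multiset_map_count] at h1
  have h2 : f.roots.toFinset ⊆ {p, q} := by
    intro x hx
    rw [Multiset.mem_toFinset, mem_roots hf] at hx
    simpa using h x hx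
  rw [Finset.prod_subset h2] at h1
  · rw [Finset.prod_pair hpq, count_roots, count_roots, ← mul_assoc] at h1
    exact h1
  · intro x _ hx
    rw [Multiset.mem_toFinset, ← Multiset.count_eq_zero] at hx
    rw [hx, pow_zero]

theorem two_zeros {K : Type*} [Field K] [CharZero K] [IsAlgClosed K] {ι : Type*} [Fintype ι]
    (hn : 3 ≤ Fintype.card ι) (p q : K) (f : ι → K[X]) (hf : ∀ k x, (f k).IsRoot x → x = p ∨ x = q)
    (hsum : ∑ k, f k = 0)
    (hsub : ∀ T : Finset ι, T.Nonempty → T ≠ univ → ∑ k ∈ T, f k ≠ 0)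
    (hcom : ¬ ∃ x, ∀ k, (f k).IsRoot x) (k : ι) :
    (f k).natDegree + 5 ≤ 2 * Fintype.card ι := by
  classical
  wlog hpq : p ≠ q generalizing q with H
  · push Not at hpq
    have : ∃ q' : K, p ≠ q' := ⟨p + 1, by simp⟩
    obtain ⟨q', hq'⟩ := this
    refine H q' (fun k x hx => ?_) hq'
    rcases hf k x hx with h | h
    · exact Or.inl h
    · exact Or.inl (h.trans hpq.symm)
  have hf0 : ∀ k, f k ≠ 0 := by
    intro k h0
    refine hsub {k} (Finset.singleton_nonempty k) ?_ (by simpa using h0)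
    intro h
    have := congrArg Finset.card h
    rw [Finset.card_singleton, Finset.card_univ] at this
    omega
  have hprod := fun k => eq_prod_of_roots hpq (hf0 k) (hf k)
  have hdeg : (f k).natDegree = (f k).rootMultiplicity p + (f k).rootMultiplicity q := by
    conv_lhs => rw [hprod k]
    rw [mul_assoc, natDegree_C_mul (leadingCoeff_ne_zero.2 (hf0 k)), natDegree_mul, natDegree_pow,
      natDegree_pow, natDegree_X_sub_C, natDegree_X_sub_C, mul_one, mul_one]
    · exact pow_ne_zero _ (X_sub_C_ne_zero p)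
    · exact pow_ne_zero _ (X_sub_C_ne_zero q)
  rw [hdeg]
  refine two_zeros_prod hn p q hpq (fun k => (f k).leadingCoeff)
    (fun k => (f k).rootMultiplicity p) (fun k => (f k).rootMultiplicity q) ?_ ?_ ?_ ?_ k
  · rw [← hsum]
    exact Finset.sum_congr rfl fun k _ => (hprod k).symm
  · intro T h1 h2 h0
    apply hsub T h1 h2
    rw [← h0]
    exact Finset.sum_congr rfl fun k _ => hprod k
  · by_contra h
    push Not at h
    exact hcom ⟨p, fun k => by
      by_contra hr
      exact h k (rootMultiplicity_eq_zero hr)⟩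
  · by_contra h
    push Not at h
    exact hcom ⟨q, fun k => by
      by_contra hr
      exact h k (rootMultiplicity_eq_zero hr)⟩

end Pool.Agent.H72.NT
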