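import Pool.Agent.H72.NT.FF

/-!
# Relations between small multiples of products of powers of the members of a triple `a + b + c = 0`
-/

set_option autoImplicit false

namespace Pool.Agent.H72.NT

open Finset Polynomial

theorem int_aux {ι : Type*} [Fintype ι] (hn : 3 ≤ Fintype.card ι) (a b : ℤ) (hco : IsCoprime a b)
    (e : ι → ℤ) (α β γ : ι → ℕ) (m : ℕ) (hdeg : ∀ k, α k + β k + γ k = m) (H : ℕ)
    (hH : ∀ k, |e k| ≤ H)
    (hsum : ∑ k, e k * a ^ α k * b ^ β k * (-a - b) ^ γ k = 0)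
    (hsub : ∀ T : Finset ι, T.Nonempty → T ≠ univ →
      ∑ k ∈ T, e k * a ^ α k * b ^ β k * (-a - b) ^ γ k ≠ 0)
    (hbig : (Fintype.card ι * H * 2 ^ m : ℤ) < |b|)
    (ha : ∃ k, α k = 0) (hb : ∃ k, β k = 0) (hc : ∃ k, γ k = 0) :
    m + 5 ≤ 2 * Fintype.card ι ∧
      (m ≠ 0 → (∃ k, α k ≠ 0) ∧ (∃ k, β k ≠ 0) ∧ (∃ k, γ k ≠ 0)) := by
  have hne : Nonempty ι := Fintype.card_pos_iff.1 (by omega)
  have hb0 : b ≠ 0 := by
    rintro rfl
    rw [abs_zero] at hbig
    have : (0 : ℤ) ≤ Fintype.card ι * H * 2 ^ m := by positivity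
    omega
  set P : ℤ[X] := ∑ k, C (e k) * X ^ α k * (-1 - X) ^ γ k with hP
  have hmap : P.map (Int.castRingHom ℚ) = ∑ k, C (e k : ℚ) * X ^ α k * (-1 - X) ^ γ k := by
    rw [hP, Polynomial.map_sum]
    refine Finset.sum_congr rfl fun k _ => ?_
    simp
  have hb0' : (b : ℚ) ^ m ≠ 0 := pow_ne_zero _ (by exact_mod_cast hb0)
  have hroot : (P.map (Int.castRingHom ℚ)).eval ((a : ℚ) / b) = 0 := by
    have h := eval_sum_term univ a b hb0 e α β γ m hdeg
    rw [hsum, Int.cast_zero] at h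
    rw [hmap]
    exact (mul_eq_zero.1 h).resolve_right hb0'
  have hP0 : P = 0 := by
    by_contra hne
    have h1 : aeval ((a : ℚ) / b) P = 0 := by
      rw [aeval_def, eval₂_eq_eval_map]
      exact hroot
    have h2 := den_dvd_of_is_root h1
    have h3 : |b| ≤ |P.leadingCoeff| := by
      calc |b| ≤ ((a : ℚ) / b).den := dvd_den hb0 hco
        _ = |((IsFractionRing.den ℤ ((a : ℚ) / b) : nonZeroDivisors ℤ) : ℤ)| := by
          rw [← Rat.isFractionRingDen, Int.natCast_natAbs]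
        _ ≤ _ := abs_le_abs_of_dvd' (leadingCoeff_ne_zero.2 hne) h2
    have h4 : |P.leadingCoeff| ≤ Fintype.card ι * H * 2 ^ m := by
      rw [leadingCoeff, hP, finsetSum_coeff]
      calc |∑ k, (C (e k) * X ^ α k * (-1 - X) ^ γ k : ℤ[X]).coeff _|
          ≤ ∑ k, |(C (e k) * X ^ α k * (-1 - X) ^ γ k : ℤ[X]).coeff _| := Finset.abs_sum_le_sum_abs _ _
        _ ≤ ∑ k : ι, (H * 2 ^ m : ℤ) := by
          refine Finset.sum_le_sum fun k _ => ?_
          rw [mul_assoc, coeff_C_mul, abs_mul]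
          have h5 := abs_coeff_term (α k) (γ k)
            (∑ k, C (e k) * X ^ α k * (-1 - X) ^ γ k : ℤ[X]).natDegree
          have h6 : (2 : ℤ) ^ γ k ≤ 2 ^ m := by
            refine pow_le_pow_right₀ (by norm_num) ?_
            have := hdeg k
            omega
          exact mul_le_mul (hH k) (h5.trans h6) (abs_nonneg _) (by positivity)
        _ = _ := by
          rw [Finset.sum_const, Finset.card_univ, nsmul_eq_mul, mul_assoc]
    omega
  have hs0 : PT (fun k => (e k : ℚ)) α γ univ = 0 := by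
    rw [PT, ← hmap, hP0, Polynomial.map_zero]
  have hs1 : ∀ T : Finset ι, T.Nonempty → T ≠ univ → PT (fun k => (e k : ℚ)) α γ T ≠ 0 := by
    intro T h1 h2 h0
    have h := eval_sum_term T a b hb0 e α β γ m hdeg
    rw [PT] at h0
    rw [h0, eval_zero, zero_mul] at h
    exact hsub T h1 h2 (by exact_mod_cast h.symm)
  exact ⟨main_Q (fun k => (e k : ℚ)) α β γ m hdeg ha hb hc hs0 hs1 hn,
    appear (fun k => (e k : ℚ)) α β γ m hdeg ha hb hc hs0 hs1⟩

/-- **Tuples of small multiples of products of powers of the members of `a + b + c = 0`.** -/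
theorem int_main {ι : Type*} [Fintype ι] (hn : 3 ≤ Fintype.card ι) (a b c : ℤ) (habc : a + b + c = 0)
    (hco : IsCoprime a b) (e : ι → ℤ) (α β γ : ι → ℕ) (m H : ℕ)
    (hdeg : ∀ k, α k + β k + γ k = m) (hH : ∀ k, |e k| ≤ H) (x : ι → ℤ)
    (hx : ∀ k, x k = e k * a ^ α k * b ^ β k * c ^ γ k)
    (hsum : ∑ k, x k = 0) (hsub : ∀ T : Finset ι, T.Nonempty → T ≠ univ → ∑ k ∈ T, x k ≠ 0)
    (hgcd : ∀ d : ℤ, (∀ k, d ∣ x k) → IsUnit d)
    (hbig : (Fintype.card ι * H * 2 ^ (m + 1) : ℤ) < max |a| (max |b| |c|)) (k : ι) :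
    |x k| ≤ H * (max |a| (max |b| |c|)) ^ (2 * Fintype.card ι - 5) ∧
      (|x k| ≤ H ∨ (a ∣ ∏ k, x k) ∧ (b ∣ ∏ k, x k) ∧ (c ∣ ∏ k, x k)) := by
  have : Nonempty ι := ⟨k⟩
  obtain ⟨α0, α', hα, kα⟩ := exists_min α
  obtain ⟨β0, β', hβ, kβ⟩ := exists_min β
  obtain ⟨γ0, γ', hγ, kγ⟩ := exists_min γ
  set d : ℤ := a ^ α0 * b ^ β0 * c ^ γ0 with hd
  set y : ι → ℤ := fun k => e k * a ^ α' k * b ^ β' k * c ^ γ' k with hy
  have hxy : ∀ k, x k = d * y k := by
    intro k
    rw [hx, hα, hβ, hγ, hd, hy, pow_add, pow_add, pow_add]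
    ring
  have hdu : IsUnit d := hgcd d fun k => ⟨y k, hxy k⟩
  have hd1 : |d| = 1 := Int.isUnit_iff_abs_eq.1 hdu
  have hd0 : d ≠ 0 := hdu.ne_zero
  set m' : ℕ := m - (α0 + β0 + γ0) with hm'
  have hdeg' : ∀ k, α' k + β' k + γ' k = m' := by
    intro k
    have h1 := hdeg k
    have h2 := hα k
    have h3 := hβ k
    have h4 := hγ k
    omega
  have hm'm : m' ≤ m := by omega
  have hc' : c = -a - b := by linarith
  have hysum : ∑ k, e k * a ^ α' k * b ^ β' k * (-a - b) ^ γ' k = 0 := by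
    have h1 : d * ∑ k, y k = 0 := by
      rw [Finset.mul_sum, ← hsum]
      exact Finset.sum_congr rfl fun k _ => (hxy k).symm
    have h2 := (mul_eq_zero.1 h1).resolve_left hd0
    simp only [hy, hc'] at h2
    exact h2
  have hysub : ∀ T : Finset ι, T.Nonempty → T ≠ univ →
      ∑ k ∈ T, e k * a ^ α' k * b ^ β' k * (-a - b) ^ γ' k ≠ 0 := by
    intro T h1 h2 h0
    apply hsub T h1 h2
    have h3 : ∑ k ∈ T, y k = 0 := by
      simp only [hy, hc']
      exact h0
    rw [Finset.sum_congr rfl fun k _ => hxy k, ← Finset.mul_sum, h3, mul_zero]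
  set M : ℤ := max |a| (max |b| |c|) with hM
  have hpos : (0 : ℤ) ≤ Fintype.card ι * H * 2 ^ (m + 1) := by positivity
  have hM1 : 1 ≤ M := by omega
  have hle : (Fintype.card ι * H * 2 ^ m' : ℤ) ≤ Fintype.card ι * H * 2 ^ m :=
    mul_le_mul_of_nonneg_left (pow_le_pow_right₀ (by norm_num) hm'm) (by positivity)
  have htwo : (Fintype.card ι * H * 2 ^ (m + 1) : ℤ) = 2 * (Fintype.card ι * H * 2 ^ m) := by
    rw [pow_succ]
    ring
  have hcab : |c| ≤ |a| + |b| := by
    rw [hc', show -a - b = -(a + b) by ring, abs_neg]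
    exact abs_add_le a b
  have hkey : m' + 5 ≤ 2 * Fintype.card ι ∧
      (m' ≠ 0 → (∃ k, α' k ≠ 0) ∧ (∃ k, β' k ≠ 0) ∧ (∃ k, γ' k ≠ 0)) := by
    rcases le_total |a| |b| with hab | hab
    · have hMb : M ≤ 2 * |b| := by
        rw [hM]
        refine max_le ?_ (max_le ?_ ?_)
        · have := abs_nonneg b
          linarith
        · have := abs_nonneg b
          linarith
        · linarith
      refine int_aux hn a b hco e α' β' γ' m' hdeg' H hH hysum hysub ?_ kα kβ kγ
      linarith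
    · have hMa : M ≤ 2 * |a| := by
        rw [hM]
        refine max_le ?_ (max_le ?_ ?_)
        · have := abs_nonneg a
          linarith
        · have := abs_nonneg a
          linarith
        · linarith
      have hswap : ∀ k, e k * b ^ β' k * a ^ α' k * (-b - a) ^ γ' k =
          e k * a ^ α' k * b ^ β' k * (-a - b) ^ γ' k := fun k => by
        rw [show -b - a = -a - b by ring]
        ring
      have h := int_aux hn b a hco.symm e β' α' γ' m' (fun k => by rw [← hdeg' k]; ring) H hH ?_ ?_ ?_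
        kβ kα kγ
      · exact ⟨h.1, fun h0 => ⟨(h.2 h0).2.1, (h.2 h0).1, (h.2 h0).2.2⟩⟩
      · rw [← hysum]
        exact Finset.sum_congr rfl fun k _ => hswap k
      · intro T h1 h2
        rw [Finset.sum_congr rfl fun k _ => hswap k]
        exact hysub T h1 h2
      · linarith
  obtain ⟨hkey, happ⟩ := hkey
  have hexp : m' ≤ 2 * Fintype.card ι - 5 := by omega
  have ha' : |a| ≤ M := le_max_left _ _
  have hb' : |b| ≤ M := (le_max_left _ _).trans (le_max_right _ _)
  have hc'' : |c| ≤ M := (le_max_right _ _).trans (le_max_right _ _)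
  have hxk : |x k| = |e k| * (|a| ^ α' k * |b| ^ β' k * |c| ^ γ' k) := by
    rw [hxy, abs_mul, hd1, one_mul, hy]
    simp only [abs_mul, abs_pow]
    ring
  have hdvdx : ∀ k (z : ℤ), z ∣ x k → z ∣ ∏ k, x k := fun k z hz =>
    hz.trans (Finset.dvd_prod_of_mem x (Finset.mem_univ k))
  refine ⟨?_, ?_⟩
  swap
  · by_cases hm0 : m' = 0
    · left
      have h1 := hdeg' k
      have e1 : α' k = 0 := by omega
      have e2 : β' k = 0 := by omega
      have e3 : γ' k = 0 := by omega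
      rw [hxk, e1, e2, e3]
      simpa using hH k
    · right
      obtain ⟨⟨k1, h1⟩, ⟨k2, h2⟩, ⟨k3, h3⟩⟩ := happ hm0
      refine ⟨hdvdx k1 a ?_, hdvdx k2 b ?_, hdvdx k3 c ?_⟩
      · rw [hx]
        exact ((dvd_pow_self a (by have := hα k1; omega)).mul_left _).mul_right _ |>.mul_right _
      · rw [hx]
        exact ((dvd_pow_self b (by have := hβ k2; omega)).mul_left _).mul_right _
      · rw [hx]
        exact (dvd_pow_self c (by have := hγ k3; omega)).mul_left _
  calc |x k| = |e k| * (|a| ^ α' k * |b| ^ β' k * |c| ^ γ' k) := hxk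
    _ ≤ H * (M ^ α' k * M ^ β' k * M ^ γ' k) := by
      refine mul_le_mul (hH k) ?_ (by positivity) (by positivity)
      gcongr
    _ = H * M ^ m' := by rw [← pow_add, ← pow_add, hdeg' k]
    _ ≤ H * M ^ (2 * Fintype.card ι - 5) := by
      exact mul_le_mul_of_nonneg_left (pow_le_pow_right₀ hM1 hexp) (by positivity)

/-- the radical of an integer -/
def rad (N : ℤ) : ℕ := N.natAbs.primeFactors.prod id

lemma rad_pos (N : ℤ) : 1 ≤ rad N :=
  Nat.succ_le_of_lt (Finset.prod_pos fun _ hp => (Nat.prime_of_mem_primeFactors hp).pos)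

lemma rad_le {a b c P : ℤ} (hP : P ≠ 0) (ha : a ∣ P) (hb : b ∣ P) (hc : c ∣ P) :
    rad (a * b * c) ≤ rad P := by
  refine Finset.prod_le_prod_of_subset_of_one_le' ?_ ?_
  · intro p hp
    have hpp := Nat.prime_of_mem_primeFactors hp
    have hd := Nat.dvd_of_mem_primeFactors hp
    rw [Nat.mem_primeFactors]
    refine ⟨hpp, ?_, by simpa using hP⟩
    rw [Int.natAbs_mul, Int.natAbs_mul, hpp.dvd_mul, hpp.dvd_mul] at hd
    rcases hd with (h | h) | h
    · exact h.trans (Int.natAbs_dvd_natAbs.2 ha)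
    · exact h.trans (Int.natAbs_dvd_natAbs.2 hb)
    · exact h.trans (Int.natAbs_dvd_natAbs.2 hc)
  · intro p hp _
    exact (Nat.prime_of_mem_primeFactors hp).one_le

end Pool.Agent.H72.NT
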