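import Pool.Agent.H72.NT.Van
import Pool.Agent.H72.NT.IntR

/-!
# A relation between products of powers with exponents up to a power of the largest base is an identity
-/

set_option autoImplicit false

namespace Pool.Agent.H72.NT

open Finset Polynomial

/-- small coefficients are determined by the residue of the value -/
lemma small_coeff {a b : ℤ} (hco : IsCoprime a b) {q : ℕ → ℤ} {m N : ℕ} (hq : ∀ s, m < s → q s = 0)
    (hdvd : a ^ N ∣ ∑ s ∈ range (m + 1), q s * a ^ s * b ^ (m - s)) (hsmall : ∀ s < N, |q s| < |a|) :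
    ∀ s < N, q s = 0 := by
  intro s
  induction s using Nat.strong_induction_on with
  | _ s ih =>
    intro hs
    rcases Nat.lt_or_ge m s with hms | hms
    · exact hq s hms
    have h0 : ∑ i ∈ range s, q i * a ^ i * b ^ (m - i) = 0 := by
      refine Finset.sum_eq_zero fun i hi => ?_
      have hi' := Finset.mem_range.1 hi
      rw [ih i hi' (by omega), zero_mul, zero_mul]
    have h1 : ∑ i ∈ range (m + 1), q i * a ^ i * b ^ (m - i) =
        a ^ s * (q s * b ^ (m - s) + a * ∑ i ∈ range (m - s), q (s + 1 + i) * a ^ i * b ^ (m - (s + 1 + i))) := by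
      have e1 : m + 1 = s + 1 + (m - s) := by omega
      rw [e1, Finset.sum_range_add, Finset.sum_range_succ, h0, zero_add, mul_add, Finset.mul_sum,
        Finset.mul_sum]
      congr 1
      · ring
      · refine Finset.sum_congr rfl fun i _ => ?_
        rw [pow_add, pow_add]
        ring
    have ha0 : a ≠ 0 := by
      rintro rfl
      have := hsmall s hs
      rw [abs_zero] at this
      have := abs_nonneg (q s)
      omega
    rw [h1] at hdvd
    have h2 : a ^ (s + 1) ∣ a ^ s * (q s * b ^ (m - s) +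
        a * ∑ i ∈ range (m - s), q (s + 1 + i) * a ^ i * b ^ (m - (s + 1 + i))) :=
      (pow_dvd_pow a (by omega)).trans hdvd
    rw [pow_succ] at h2
    have h3 := (mul_dvd_mul_iff_left (pow_ne_zero s ha0)).1 h2
    have h4 : a ∣ q s * b ^ (m - s) := (dvd_add_left (dvd_mul_right _ _)).1 h3
    have h5 : a ∣ q s := (hco.pow_right).dvd_of_dvd_mul_right h4
    by_contra hne
    have h6 := abs_le_abs_of_dvd' hne h5
    have h7 := hsmall s hs
    omega

lemma abs_coeff_term' (α g s m J : ℕ) (hm : 1 ≤ m) (hg : g ≤ m) (hs : s ≤ J) :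
    |(X ^ α * (-1 - X) ^ g : ℤ[X]).coeff s| ≤ (m : ℤ) ^ J := by
  have h : (-1 - X : ℤ[X]) ^ g = C ((-1) ^ g) * (1 + X) ^ g := by
    rw [C_pow, ← mul_pow]
    congr 1
    rw [C_neg, C_1]
    ring
  rw [coeff_X_pow_mul', h]
  split_ifs
  · rw [coeff_C_mul, coeff_one_add_X_pow, abs_mul, abs_pow, abs_neg, abs_one, one_pow, one_mul]
    rw [abs_of_nonneg (by positivity)]
    have h1 : g.choose (s - α) ≤ m ^ J := by
      calc g.choose (s - α) ≤ g ^ (s - α) := Nat.choose_le_pow _ _
        _ ≤ m ^ (s - α) := Nat.pow_le_pow_left hg _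
        _ ≤ m ^ J := Nat.pow_le_pow_right hm (by omega)
    exact_mod_cast h1
  · rw [abs_zero]
    positivity

lemma hom_eval {ι : Type*} (T : Finset ι) (a b : ℤ) (hb : b ≠ 0) (e : ι → ℤ) (α β γ : ι → ℕ)
    (m : ℕ) (h : ∀ k, α k + β k + γ k = m) (Q : ℤ[X])
    (hQ : Q = ∑ k ∈ T, C (e k) * X ^ α k * (-1 - X) ^ γ k) (hd : Q.natDegree ≤ m) :
    ∑ s ∈ range (m + 1), Q.coeff s * a ^ s * b ^ (m - s) =
      ∑ k ∈ T, e k * a ^ α k * b ^ β k * (-a - b) ^ γ k := by
  have h1 := eval_sum_term T a b hb e α β γ m h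
  have h2 : (∑ k ∈ T, C (e k : ℚ) * X ^ α k * (-1 - X) ^ γ k : ℚ[X]) = Q.map (Int.castRingHom ℚ) := by
    rw [hQ, Polynomial.map_sum]
    refine Finset.sum_congr rfl fun k _ => ?_
    simp
  rw [h2, eval_eq_sum_range' (n := m + 1)
    (lt_of_le_of_lt natDegree_map_le (Nat.lt_succ_of_le hd)), Finset.sum_mul] at h1
  have h3 : ((∑ s ∈ range (m + 1), Q.coeff s * a ^ s * b ^ (m - s) : ℤ) : ℚ) =
      ((∑ k ∈ T, e k * a ^ α k * b ^ β k * (-a - b) ^ γ k : ℤ) : ℚ) := by
    rw [← h1]
    push_cast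
    refine Finset.sum_congr rfl fun s hs => ?_
    have hs' : s ≤ m := by
      have := Finset.mem_range.1 hs
      omega
    have hb' : (b : ℚ) ≠ 0 := by exact_mod_cast hb
    rw [coeff_map, div_pow]
    have h4 : (b : ℚ) ^ m = (b : ℚ) ^ s * (b : ℚ) ^ (m - s) := by
      rw [← pow_add]
      congr 1
      omega
    rw [h4]
    have h5 : (b : ℚ) ^ s ≠ 0 := pow_ne_zero _ hb'
    simp only [eq_intCast]
    field_simp
  exact_mod_cast h3

lemma exists_gap {ι : Type*} [Fintype ι] (α : ι → ℕ) (J : ℕ) (h0 : ∃ k, α k = 0) :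
    ∃ j < Fintype.card ι, ∀ k, α k ≤ j * J ∨ (j + 1) * J < α k := by
  by_contra hc
  push Not at hc
  have h1 : ∀ j : Fin (Fintype.card ι), ∃ k, j * J < α k ∧ α k ≤ (j + 1) * J := fun j => hc j j.2
  choose f hf using h1
  have hinj : Function.Injective f := by
    intro i j hij
    obtain ⟨a1, a2⟩ := hf i
    obtain ⟨b1, b2⟩ := hf j
    rw [hij] at a1 a2
    have c1 : (i : ℕ) * J < (j + 1) * J := lt_of_lt_of_le a1 b2
    have c2 : (j : ℕ) * J < (i + 1) * J := lt_of_lt_of_le b1 a2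
    have d1 := Nat.lt_of_mul_lt_mul_right c1
    have d2 := Nat.lt_of_mul_lt_mul_right c2
    apply Fin.ext
    omega
  have hbij : Function.Bijective f :=
    (Fintype.bijective_iff_injective_and_card f).2 ⟨hinj, by simp⟩
  obtain ⟨k, hk⟩ := h0
  obtain ⟨j, hj⟩ := hbij.2 k
  have := (hf j).1
  rw [hj, hk] at this
  omega

theorem ident {ι : Type*} [Fintype ι] (hn : 2 ≤ Fintype.card ι) (a b : ℤ) (hco : IsCoprime a b)
    (e : ι → ℤ) (α β γ : ι → ℕ) (m : ℕ) (hm : 1 ≤ m) (hdeg : ∀ k, α k + β k + γ k = m) (H : ℕ)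
    (hH : ∀ k, |e k| ≤ H)
    (hsum : ∑ k, e k * a ^ α k * b ^ β k * (-a - b) ^ γ k = 0)
    (hsub : ∀ T : Finset ι, T.Nonempty → T ≠ univ →
      ∑ k ∈ T, e k * a ^ α k * b ^ β k * (-a - b) ^ γ k ≠ 0)
    (hbig : (Fintype.card ι * H * m ^ (Fintype.card ι * 2 ^ Fintype.card ι) : ℤ) < |a|)
    (ha : ∃ k, α k = 0) :
    b ≠ 0 ∧ PT (fun k => (e k : ℚ)) α γ univ = 0 := by
  classical
  set n := Fintype.card ι with hn'
  have hb : b ≠ 0 := by
    rintro rfl
    have h1 : |a| = 1 := Int.isUnit_iff_abs_eq.1 (isCoprime_zero_right.1 hco)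
    obtain ⟨k, -⟩ := ha
    have h2 : (1 : ℤ) ≤ H := by
      have h3 : e k ≠ 0 := by
        intro h0
        refine hsub {k} (Finset.singleton_nonempty k) ?_ (by simp [h0])
        intro h
        have := congrArg Finset.card h
        rw [Finset.card_singleton, Finset.card_univ] at this
        omega
      exact (Int.one_le_abs h3).trans (hH k)
    have h3 : (1 : ℤ) ≤ (m : ℤ) ^ (n * 2 ^ n) := one_le_pow₀ (by exact_mod_cast hm)
    have h4 : (2 : ℤ) ≤ n := by exact_mod_cast hn
    rw [h1] at hbig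
    nlinarith [mul_pos (show (0 : ℤ) < n by omega) (show (0 : ℤ) < H by omega)]
  refine ⟨hb, ?_⟩
  obtain ⟨j, hj, hgap⟩ := exists_gap α (2 ^ n) ha
  set T : Finset ι := Finset.univ.filter (fun k => α k ≤ j * 2 ^ n) with hT
  set N : ℕ := (j + 1) * 2 ^ n + 1 with hN
  set Q : ℤ[X] := ∑ k ∈ T, C (e k) * X ^ α k * (-1 - X) ^ γ k with hQ
  have hd : Q.natDegree ≤ m := by
    refine natDegree_sum_le_of_forall_le T _ fun k _ => ?_
    refine (natDegree_mul_le.trans (add_le_add (natDegree_C_mul_le _ _) natDegree_pow_le)).trans ?_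
    have h1 : (-1 - X : ℤ[X]).natDegree ≤ 1 := by
      refine (natDegree_sub_le _ _).trans ?_
      rw [natDegree_neg, natDegree_one, natDegree_X]
      simp
    rw [natDegree_X_pow]
    have := hdeg k
    nlinarith [Nat.mul_le_mul_left (γ k) h1]
  have hhom := hom_eval T a b hb e α β γ m hdeg Q hQ hd
  have hdvd : a ^ N ∣ ∑ s ∈ range (m + 1), Q.coeff s * a ^ s * b ^ (m - s) := by
    rw [hhom]
    have h1 := Finset.sum_add_sum_compl T (fun k => e k * a ^ α k * b ^ β k * (-a - b) ^ γ k)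
    rw [hsum] at h1
    rw [eq_neg_of_add_eq_zero_left h1, dvd_neg]
    refine Finset.dvd_sum fun k hk => ?_
    rw [hT, Finset.mem_compl, Finset.mem_filter] at hk
    have h2 : N ≤ α k := by
      rcases hgap k with h | h
      · exact absurd ⟨Finset.mem_univ k, h⟩ hk
      · omega
    exact (((pow_dvd_pow a h2).mul_left _).mul_right _).mul_right _
  have hsmall : ∀ s < N, |Q.coeff s| < |a| := by
    intro s hs
    refine lt_of_le_of_lt ?_ hbig
    rw [hQ, finsetSum_coeff]
    calc |∑ k ∈ T, (C (e k) * X ^ α k * (-1 - X) ^ γ k : ℤ[X]).coeff s|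
        ≤ ∑ k ∈ T, |(C (e k) * X ^ α k * (-1 - X) ^ γ k : ℤ[X]).coeff s| :=
          Finset.abs_sum_le_sum_abs _ _
      _ ≤ ∑ k ∈ T, (H * (m : ℤ) ^ (n * 2 ^ n)) := by
          refine Finset.sum_le_sum fun k _ => ?_
          rw [mul_assoc, coeff_C_mul, abs_mul]
          refine mul_le_mul (hH k) (abs_coeff_term' _ _ _ _ _ hm (by have := hdeg k; omega) ?_)
            (abs_nonneg _) (by positivity)
          have : (j + 1) * 2 ^ n ≤ n * 2 ^ n := Nat.mul_le_mul_right _ hj
          omega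
      _ = T.card * (H * (m : ℤ) ^ (n * 2 ^ n)) := by rw [Finset.sum_const, nsmul_eq_mul]
      _ ≤ n * (H * (m : ℤ) ^ (n * 2 ^ n)) := by
          refine mul_le_mul_of_nonneg_right ?_ (by positivity)
          rw [hn']
          exact_mod_cast Finset.card_le_univ T
      _ = _ := by ring
  have hzero := small_coeff hco (fun s hs => coeff_eq_zero_of_natDegree_lt (lt_of_le_of_lt hd hs))
    hdvd hsmall
  -- the polynomial of the first group of terms vanishes
  have hmap : Q.map (Int.castRingHom ℚ) = PT (fun k => (e k : ℚ)) α γ T := by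
    rw [hQ, Polynomial.map_sum, PT]
    refine Finset.sum_congr rfl fun k _ => ?_
    simp
  have hPT : PT (fun k => (e k : ℚ)) α γ T = 0 := by
    by_contra hne
    have h1 : PT (fun k => (e k : ℚ)) α γ T = ∑ k ∈ T, C (e k : ℚ) * (X ^ α k * (-1 - X) ^ γ k) := by
      unfold PT
      exact Finset.sum_congr rfl fun k _ => mul_assoc _ _ _
    have h2 : (X : ℚ[X]) ^ N ∣ PT (fun k => (e k : ℚ)) α γ T := by
      rw [← hmap, X_pow_dvd_iff]
      intro s hs
      rw [coeff_map, hzero s hs, map_zero]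
    rw [h1] at h2 hne
    have h3 := vanish T 1 (j * 2 ^ n) N α γ (fun k => C (e k : ℚ))
      (fun k hk => by rw [hT, Finset.mem_filter] at hk; exact hk.2)
      (fun k _ => lt_of_le_of_lt degree_C_le (by norm_num)) hne h2
    have h4 : 2 ^ T.card ≤ 2 ^ n := Nat.pow_le_pow_right (by norm_num) (Finset.card_le_univ T)
    have h5 : N = j * 2 ^ n + 2 ^ n + 1 := by
      rw [hN]
      ring
    have h6 : 1 ≤ 2 ^ T.card := Nat.one_le_two_pow
    rw [h5, one_mul] at h3
    generalize 2 ^ T.card = u at h3 h4 h6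
    generalize 2 ^ n = v at h3 h4
    omega
  have hTu : T = univ := by
    by_contra hne
    obtain ⟨k, hk⟩ := ha
    refine hsub T ⟨k, by rw [hT, Finset.mem_filter]; exact ⟨Finset.mem_univ k, by omega⟩⟩ hne ?_
    have h := eval_sum_term T a b hb e α β γ m hdeg
    rw [PT] at hPT
    rw [hPT, eval_zero, zero_mul] at h
    exact_mod_cast h.symm
  rw [← hTu]
  exact hPT

end Pool.Agent.H72.NT
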