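import Pool.Agent.H72.NT.Idn

/-!
# The integer theorem with exponents up to a power of the maximum
-/

set_option autoImplicit false

namespace Pool.Agent.H72.NT

open Finset Polynomial

theorem int_aux2 {ι : Type*} [Fintype ι] (hn : 3 ≤ Fintype.card ι) (a b : ℤ) (hco : IsCoprime a b)
    (e : ι → ℤ) (α β γ : ι → ℕ) (m : ℕ) (hm : 1 ≤ m) (hdeg : ∀ k, α k + β k + γ k = m) (H : ℕ)
    (hH : ∀ k, |e k| ≤ H)
    (hsum : ∑ k, e k * a ^ α k * b ^ β k * (-a - b) ^ γ k = 0)
    (hsub : ∀ T : Finset ι, T.Nonempty → T ≠ univ →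
      ∑ k ∈ T, e k * a ^ α k * b ^ β k * (-a - b) ^ γ k ≠ 0)
    (hbig : (Fintype.card ι * H * m ^ (Fintype.card ι * 2 ^ Fintype.card ι) : ℤ) < |a|)
    (ha : ∃ k, α k = 0) (hb : ∃ k, β k = 0) (hc : ∃ k, γ k = 0) :
    m + 5 ≤ 2 * Fintype.card ι ∧
      (m ≠ 0 → (∃ k, α k ≠ 0) ∧ (∃ k, β k ≠ 0) ∧ (∃ k, γ k ≠ 0)) := by
  have hne : Nonempty ι := Fintype.card_pos_iff.1 (by omega)
  obtain ⟨hb0, hs0⟩ := ident (by omega) a b hco e α β γ m hm hdeg H hH hsum hsub hbig ha
  have hs1 : ∀ T : Finset ι, T.Nonempty → T ≠ univ → PT (fun k => (e k : ℚ)) α γ T ≠ 0 := by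
    intro T h1 h2 h0
    have h := eval_sum_term T a b hb0 e α β γ m hdeg
    rw [PT] at h0
    rw [h0, eval_zero, zero_mul] at h
    exact hsub T h1 h2 (by exact_mod_cast h.symm)
  exact ⟨main_Q (fun k => (e k : ℚ)) α β γ m hdeg ha hb hc hs0 hs1 hn,
    appear (fun k => (e k : ℚ)) α β γ m hdeg ha hb hc hs0 hs1⟩

/-- **The same with exponents up to a power of the maximum.** -/
theorem int_main2 {ι : Type*} [Fintype ι] (hn : 3 ≤ Fintype.card ι) (a b c : ℤ) (habc : a + b + c = 0)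
    (hco : IsCoprime a b) (e : ι → ℤ) (α β γ : ι → ℕ) (m H : ℕ)
    (hdeg : ∀ k, α k + β k + γ k = m) (hH : ∀ k, |e k| ≤ H) (x : ι → ℤ)
    (hx : ∀ k, x k = e k * a ^ α k * b ^ β k * c ^ γ k)
    (hsum : ∑ k, x k = 0) (hsub : ∀ T : Finset ι, T.Nonempty → T ≠ univ → ∑ k ∈ T, x k ≠ 0)
    (hgcd : ∀ d : ℤ, (∀ k, d ∣ x k) → IsUnit d)
    (hbig : (2 * Fintype.card ι * H * m ^ (Fintype.card ι * 2 ^ Fintype.card ι) : ℤ) <
      max |a| (max |b| |c|)) (k : ι) :
    |x k| ≤ H * (max |a| (max |b| |c|)) ^ (2 * Fintype.card ι - 5) ∧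
      (|x k| ≤ H ∨ (a ∣ ∏ k, x k) ∧ (b ∣ ∏ k, x k) ∧ (c ∣ ∏ k, x k)) := by
  have : Nonempty ι := ⟨k⟩
  obtain ⟨α0, α', hα, kα⟩ := exists_min α
  obtain ⟨β0, β', hβ, kβ⟩ := exists_min β
  obtain ⟨γ0, γ', hγ, kγ⟩ := exists_min γ
  set d : ℤ := a ^ α0 * b ^ β0 * c ^ γ0 with hd
  set y : ι → ℤ := fun k => e k * a ^ α' k * b ^ β' k * c ^ γ' k with hy
  have hxy : ∀ k, x k = d * y k := by
    intro k
    rw [hx, hα, hβ, hγ, hd, hy, pow_add, pow_add, pow_add]
    ring
  have hdu : IsUnit d := hgcd d fun k => ⟨y k, hxy k⟩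
  have hd1 : |d| = 1 := Int.isUnit_iff_abs_eq.1 hdu
  have hd0 : d ≠ 0 := hdu.ne_zero
  set m' : ℕ := m - (α0 + β0 + γ0) with hm'
  have hdeg' : ∀ k, α' k + β' k + γ' k = m' := by
    intro k
    have h1 := hdeg k
    have h2 := hα k
    have h3 := hβ k
    have h4 := hγ k
    omega
  have hm'm : m' ≤ m := by omega
  have hc' : c = -a - b := by linarith
  have hysum : ∑ k, e k * a ^ α' k * b ^ β' k * (-a - b) ^ γ' k = 0 := by
    have h1 : d * ∑ k, y k = 0 := by
      rw [Finset.mul_sum, ← hsum]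
      exact Finset.sum_congr rfl fun k _ => (hxy k).symm
    have h2 := (mul_eq_zero.1 h1).resolve_left hd0
    simp only [hy, hc'] at h2
    exact h2
  have hysub : ∀ T : Finset ι, T.Nonempty → T ≠ univ →
      ∑ k ∈ T, e k * a ^ α' k * b ^ β' k * (-a - b) ^ γ' k ≠ 0 := by
    intro T h1 h2 h0
    apply hsub T h1 h2
    have h3 : ∑ k ∈ T, y k = 0 := by
      simp only [hy, hc']
      exact h0
    rw [Finset.sum_congr rfl fun k _ => hxy k, ← Finset.mul_sum, h3, mul_zero]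
  set M : ℤ := max |a| (max |b| |c|) with hM
  set E : ℕ := Fintype.card ι * 2 ^ Fintype.card ι with hE
  have hpos : (0 : ℤ) ≤ 2 * Fintype.card ι * H * m ^ E := by positivity
  have hM1 : 1 ≤ M := by omega
  have hle : (Fintype.card ι * H * m' ^ E : ℤ) ≤ Fintype.card ι * H * m ^ E :=
    mul_le_mul_of_nonneg_left (pow_le_pow_left₀ (by positivity) (by exact_mod_cast hm'm) _)
      (by positivity)
  have htwo : (2 * Fintype.card ι * H * m ^ E : ℤ) = 2 * (Fintype.card ι * H * m ^ E) := by ring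
  have hcab : |c| ≤ |a| + |b| := by
    rw [hc', show -a - b = -(a + b) by ring, abs_neg]
    exact abs_add_le a b
  have hkey : m' + 5 ≤ 2 * Fintype.card ι ∧
      (m' ≠ 0 → (∃ k, α' k ≠ 0) ∧ (∃ k, β' k ≠ 0) ∧ (∃ k, γ' k ≠ 0)) := by
    rcases Nat.eq_zero_or_pos m' with hm0 | hm0
    · exact ⟨by omega, fun h => absurd hm0 h⟩
    rcases le_total |a| |b| with hab | hab
    · have hMb : M ≤ 2 * |b| := by
        rw [hM]
        refine max_le ?_ (max_le ?_ ?_)
        · have := abs_nonneg b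
          linarith
        · have := abs_nonneg b
          linarith
        · linarith
      have hswap : ∀ k, e k * b ^ β' k * a ^ α' k * (-b - a) ^ γ' k =
          e k * a ^ α' k * b ^ β' k * (-a - b) ^ γ' k := fun k => by
        rw [show -b - a = -a - b by ring]
        ring
      have h := int_aux2 hn b a hco.symm e β' α' γ' m' hm0 (fun k => by rw [← hdeg' k]; ring) H hH
        ?_ ?_ ?_ kβ kα kγ
      · exact ⟨h.1, fun h0 => ⟨(h.2 h0).2.1, (h.2 h0).1, (h.2 h0).2.2⟩⟩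
      · rw [← hysum]
        exact Finset.sum_congr rfl fun k _ => hswap k
      · intro T h1 h2
        rw [Finset.sum_congr rfl fun k _ => hswap k]
        exact hysub T h1 h2
      · linarith
    · have hMa : M ≤ 2 * |a| := by
        rw [hM]
        refine max_le ?_ (max_le ?_ ?_)
        · have := abs_nonneg a
          linarith
        · have := abs_nonneg a
          linarith
        · linarith
      refine int_aux2 hn a b hco e α' β' γ' m' hm0 hdeg' H hH hysum hysub ?_ kα kβ kγ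
      linarith
  obtain ⟨hkey, happ⟩ := hkey
  have hexp : m' ≤ 2 * Fintype.card ι - 5 := by omega
  have ha' : |a| ≤ M := le_max_left _ _
  have hb' : |b| ≤ M := (le_max_left _ _).trans (le_max_right _ _)
  have hc'' : |c| ≤ M := (le_max_right _ _).trans (le_max_right _ _)
  have hxk : |x k| = |e k| * (|a| ^ α' k * |b| ^ β' k * |c| ^ γ' k) := by
    rw [hxy, abs_mul, hd1, one_mul, hy]
    simp only [abs_mul, abs_pow]
    ring
  have hdvdx : ∀ k (z : ℤ), z ∣ x k → z ∣ ∏ k, x k := fun k z hz =>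
    hz.trans (Finset.dvd_prod_of_mem x (Finset.mem_univ k))
  refine ⟨?_, ?_⟩
  swap
  · by_cases hm0 : m' = 0
    · left
      have h1 := hdeg' k
      have e1 : α' k = 0 := by omega
      have e2 : β' k = 0 := by omega
      have e3 : γ' k = 0 := by omega
      rw [hxk, e1, e2, e3]
      simpa using hH k
    · right
      obtain ⟨⟨k1, h1⟩, ⟨k2, h2⟩, ⟨k3, h3⟩⟩ := happ hm0
      refine ⟨hdvdx k1 a ?_, hdvdx k2 b ?_, hdvdx k3 c ?_⟩
      · rw [hx]
        exact ((dvd_pow_self a (by have := hα k1; omega)).mul_left _).mul_right _ |>.mul_right _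
      · rw [hx]
        exact ((dvd_pow_self b (by have := hβ k2; omega)).mul_left _).mul_right _
      · rw [hx]
        exact (dvd_pow_self c (by have := hγ k3; omega)).mul_left _
  calc |x k| = |e k| * (|a| ^ α' k * |b| ^ β' k * |c| ^ γ' k) := hxk
    _ ≤ H * (M ^ α' k * M ^ β' k * M ^ γ' k) := by
      refine mul_le_mul (hH k) ?_ (by positivity) (by positivity)
      gcongr
    _ = H * M ^ m' := by rw [← pow_add, ← pow_add, hdeg' k]
    _ ≤ H * M ^ (2 * Fintype.card ι - 5) := by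
      exact mul_le_mul_of_nonneg_left (pow_le_pow_right₀ hM1 hexp) (by positivity)


end Pool.Agent.H72.NT
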