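import Pool.Agent.H72.NT.Field

/-!
# Relations between products of powers of the members of a triple `a + b + c = 0`
-/

set_option autoImplicit false

namespace Pool.Agent.H72.NT

open Finset Polynomial

lemma abs_le_abs_of_dvd' {x y : ℤ} (hy : y ≠ 0) (h : x ∣ y) : |x| ≤ |y| :=
  Int.le_of_dvd (abs_pos.2 hy) ((abs_dvd_abs x y).2 h)

lemma abs_coeff_term (a g i : ℕ) : |(X ^ a * (-1 - X) ^ g : ℤ[X]).coeff i| ≤ 2 ^ g := by
  have h : (-1 - X : ℤ[X]) ^ g = C ((-1) ^ g) * (1 + X) ^ g := by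
    rw [C_pow, ← mul_pow]
    congr 1
    rw [C_neg, C_1]
    ring
  rw [coeff_X_pow_mul', h]
  split_ifs
  · rw [coeff_C_mul, coeff_one_add_X_pow, abs_mul, abs_pow, abs_neg, abs_one, one_pow, one_mul]
    rw [abs_of_nonneg (by positivity)]
    exact_mod_cast Nat.choose_le_two_pow _ _
  · simp

lemma eval_term (a b : ℤ) (hb : b ≠ 0) (e : ℤ) (α β γ m : ℕ) (h : α + β + γ = m) :
    (C (e : ℚ) * X ^ α * (-1 - X) ^ γ : ℚ[X]).eval ((a : ℚ) / b) * (b : ℚ) ^ m =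
      ((e * a ^ α * b ^ β * (-a - b) ^ γ : ℤ) : ℚ) := by
  have hb' : (b : ℚ) ≠ 0 := by exact_mod_cast hb
  simp only [eval_mul, eval_C, eval_pow, eval_X, eval_sub, eval_neg, eval_one]
  rw [← h, pow_add, pow_add]
  push_cast
  have h1 : ((a : ℚ) / b) ^ α * (b : ℚ) ^ α = (a : ℚ) ^ α := by
    rw [← mul_pow, div_mul_cancel₀ _ hb']
  have h2 : (-1 - (a : ℚ) / b) ^ γ * (b : ℚ) ^ γ = (-(a : ℚ) - b) ^ γ := by
    rw [← mul_pow]
    congr 1
    field_simp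
    ring
  calc (e : ℚ) * ((a : ℚ) / b) ^ α * (-1 - (a : ℚ) / b) ^ γ * ((b : ℚ) ^ α * (b : ℚ) ^ β * (b : ℚ) ^ γ)
      = e * (((a : ℚ) / b) ^ α * (b : ℚ) ^ α) * (b : ℚ) ^ β *
        ((-1 - (a : ℚ) / b) ^ γ * (b : ℚ) ^ γ) := by ring
    _ = _ := by rw [h1, h2]

lemma eval_sum_term {ι : Type*} (T : Finset ι) (a b : ℤ) (hb : b ≠ 0) (e : ι → ℤ) (α β γ : ι → ℕ)
    (m : ℕ) (h : ∀ k, α k + β k + γ k = m) :
    (∑ k ∈ T, C (e k : ℚ) * X ^ α k * (-1 - X) ^ γ k : ℚ[X]).eval ((a : ℚ) / b) * (b : ℚ) ^ m =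
      ((∑ k ∈ T, e k * a ^ α k * b ^ β k * (-a - b) ^ γ k : ℤ) : ℚ) := by
  rw [eval_finsetSum, Finset.sum_mul]
  push_cast
  refine Finset.sum_congr rfl fun k _ => ?_
  rw [eval_term a b hb (e k) (α k) (β k) (γ k) m (h k)]
  push_cast
  rfl

lemma dvd_den {a b : ℤ} (hb : b ≠ 0) (hco : IsCoprime a b) : |b| ≤ ((a : ℚ) / b).den := by
  set r : ℚ := (a : ℚ) / b with hr
  have hb' : (b : ℚ) ≠ 0 := by exact_mod_cast hb
  have hd : (r.den : ℚ) ≠ 0 := by exact_mod_cast r.den_ne_zero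
  have h1 : (r.num : ℚ) * b = a * r.den := by
    have h2 : (r.num : ℚ) / r.den = a / b := by rw [Rat.num_div_den r, hr]
    rw [div_eq_div_iff hd hb'] at h2
    exact h2
  have h3 : r.num * b = a * r.den := by exact_mod_cast h1
  have h4 : b ∣ a * r.den := ⟨r.num, by rw [← h3, mul_comm]⟩
  have h5 : b ∣ (r.den : ℤ) := hco.symm.dvd_of_dvd_mul_left h4
  have h6 : (0 : ℤ) < r.den := by exact_mod_cast r.den_pos
  calc |b| ≤ |(r.den : ℤ)| := abs_le_abs_of_dvd' h6.ne' h5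
    _ = r.den := abs_of_pos h6

lemma exists_min {ι : Type*} [Fintype ι] [Nonempty ι] (α : ι → ℕ) :
    ∃ α0 : ℕ, ∃ α' : ι → ℕ, (∀ k, α k = α0 + α' k) ∧ ∃ k, α' k = 0 := by
  obtain ⟨k0, -, h⟩ := Finset.exists_min_image Finset.univ α Finset.univ_nonempty
  exact ⟨α k0, fun k => α k - α k0, fun k => by
    have := h k (Finset.mem_univ k)
    change α k = α k0 + (α k - α k0)
    omega, k0, by simp⟩

end Pool.Agent.H72.NT
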