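import Pool.Agent.H72.NT.Poly

/-!
# The theorem over the rational numbers
-/

set_option autoImplicit false

namespace Pool.Agent.H72.NT

open Finset Polynomial

section

variable {ι : Type*} (c : ι → ℚ) (α γ : ι → ℕ)

/-- the polynomial in two variables of a partial sum -/
noncomputable def FT (T : Finset ι) : ℚ[X][X] := ∑ k ∈ T, monomial (γ k) (monomial (α k) (c k))

lemma eval_FT (T : Finset ι) :
    (FT c α γ T).eval (-1 - X) = ∑ k ∈ T, C (c k) * X ^ α k * (-1 - X) ^ γ k := by
  unfold FT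
  rw [eval_finsetSum]
  refine Finset.sum_congr rfl fun k _ => ?_
  rw [eval_monomial, ← C_mul_X_pow_eq_monomial]

lemma coeff_FT (T : Finset ι) (i j : ℕ) :
    ((FT c α γ T).coeff j).coeff i = ∑ k ∈ T, if α k = i ∧ γ k = j then c k else 0 := by
  unfold FT
  rw [finsetSum_coeff, finsetSum_coeff]
  refine Finset.sum_congr rfl fun k _ => ?_
  rw [coeff_monomial]
  by_cases h : γ k = j
  · rw [if_pos h, coeff_monomial]
    by_cases h' : α k = i
    · rw [if_pos h', if_pos ⟨h', h⟩]
    · rw [if_neg h', if_neg (fun hh => h' hh.1)]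
  · rw [if_neg h, coeff_zero, if_neg (fun hh => h hh.2)]

lemma exists_of_coeff_FT {T : Finset ι} {i j : ℕ} (h : ((FT c α γ T).coeff j).coeff i ≠ 0) :
    ∃ k ∈ T, α k = i ∧ γ k = j := by
  rw [coeff_FT] at h
  obtain ⟨k, hk, hne⟩ := Finset.exists_ne_zero_of_sum_ne_zero h
  refine ⟨k, hk, ?_⟩
  by_contra hc
  exact hne (if_neg hc)

end

lemma bound_coeff (G : ℚ[X][X]) : ∃ M, ∀ i j, (G.coeff j).coeff i ≠ 0 → i < M ∧ j < M := by
  refine ⟨max (G.natDegree + 1) ((range (G.natDegree + 1)).sup (fun j => (G.coeff j).natDegree) + 1),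
    fun i j h => ?_⟩
  have hj : j ≤ G.natDegree := by
    apply le_natDegree_of_ne_zero
    intro h0
    rw [h0, coeff_zero] at h
    exact h rfl
  have hi : i ≤ (G.coeff j).natDegree := le_natDegree_of_ne_zero h
  have hs : (G.coeff j).natDegree ≤ (range (G.natDegree + 1)).sup (fun j => (G.coeff j).natDegree) :=
    Finset.le_sup (f := fun j => (G.coeff j).natDegree) (Finset.mem_range.2 (by omega))
  constructor
  · exact lt_of_lt_of_le (by omega) (le_max_right _ _)
  · exact lt_of_lt_of_le (by omega) (le_max_left _ _)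

lemma S_ind_le {ι : Type*} [Fintype ι] (α γ : ι → ℕ) (L : ℕ) (F : ℕ → ℕ → ℚ)
    (hF : ∀ i j, F i j ≠ 0 → ∃ k, α k = i ∧ γ k = j) :
    S L (fun i j => ind (F i j)) ≤ Fintype.card ι := by
  classical
  have h1 : ∀ i j, ind (F i j) ≤ ∑ k : ι, if α k = i ∧ γ k = j then (1 : ℤ) else 0 := by
    intro i j
    by_cases h : F i j = 0
    · rw [h, ind_zero]
      exact Finset.sum_nonneg fun k _ => by split_ifs <;> norm_num
    · rw [ind_of_ne h]
      obtain ⟨k, hk⟩ := hF i j h
      calc (1 : ℤ) = if α k = i ∧ γ k = j then (1 : ℤ) else 0 := by rw [if_pos hk]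
        _ ≤ _ := Finset.single_le_sum (f := fun k => if α k = i ∧ γ k = j then (1 : ℤ) else 0)
          (fun k _ => by split_ifs <;> norm_num) (Finset.mem_univ k)
  calc S L (fun i j => ind (F i j))
      ≤ ∑ i ∈ range L, ∑ j ∈ range (L - i), ∑ k : ι, (if α k = i ∧ γ k = j then (1 : ℤ) else 0) :=
        Finset.sum_le_sum fun i _ => Finset.sum_le_sum fun j _ => h1 i j
    _ = ∑ k : ι, ∑ i ∈ range L, ∑ j ∈ range (L - i), (if α k = i ∧ γ k = j then (1 : ℤ) else 0) := by
        have e1 : ∀ i, ∑ j ∈ range (L - i), ∑ k : ι, (if α k = i ∧ γ k = j then (1 : ℤ) else 0) =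
            ∑ k : ι, ∑ j ∈ range (L - i), (if α k = i ∧ γ k = j then (1 : ℤ) else 0) :=
          fun i => Finset.sum_comm
        rw [Finset.sum_congr rfl fun i _ => e1 i, Finset.sum_comm]
    _ ≤ ∑ k : ι, (1 : ℤ) := by
        refine Finset.sum_le_sum fun k _ => ?_
        calc ∑ i ∈ range L, ∑ j ∈ range (L - i), (if α k = i ∧ γ k = j then (1 : ℤ) else 0)
            ≤ ∑ i ∈ range L, (if α k = i then (1 : ℤ) else 0) := by
              refine Finset.sum_le_sum fun i _ => ?_
              by_cases hi : α k = i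
              · simp only [hi, true_and, if_true]
                rw [Finset.sum_ite_eq]
                split_ifs <;> norm_num
              · simp [hi]
          _ ≤ 1 := by
              rw [Finset.sum_ite_eq]
              split_ifs <;> norm_num
    _ = Fintype.card ι := by simp

theorem main_Q {ι : Type*} [Fintype ι] (c : ι → ℚ) (α β γ : ι → ℕ) (m : ℕ)
    (hdeg : ∀ k, α k + β k + γ k = m) (ha : ∃ k, α k = 0) (hb : ∃ k, β k = 0) (hc : ∃ k, γ k = 0)
    (hsum : ∑ k, C (c k) * X ^ α k * (-1 - X) ^ γ k = 0)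
    (hsub : ∀ T : Finset ι, T.Nonempty → T ≠ univ →
      ∑ k ∈ T, C (c k) * X ^ α k * (-1 - X) ^ γ k ≠ 0)
    (hn : 3 ≤ Fintype.card ι) : m + 5 ≤ 2 * Fintype.card ι := by
  classical
  rcases Nat.lt_or_ge m 2 with hm | hm
  · omega
  obtain ⟨N, rfl⟩ : ∃ N, m = N + 2 := ⟨m - 2, by omega⟩
  set F := FT c α γ univ with hF
  -- the quotient
  have hroot : F.IsRoot (-1 - X) := by
    rw [IsRoot.def, hF, eval_FT]
    exact hsum
  obtain ⟨G, hG⟩ := dvd_iff_isRoot.2 hroot
  have hX : (X - C (-1 - X) : ℚ[X][X]) = X + C (1 + X) := by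
    rw [sub_eq_add_neg, ← C_neg]
    congr 2
    ring
  rw [hX] at hG
  set g : ℕ → ℕ → ℚ := fun i j => (G.coeff j).coeff i with hg
  have hTG : ∀ i j, TG g i j = (F.coeff j).coeff i := fun i j => by
    rw [hG, coeff_mul_TG]
  obtain ⟨M, hM⟩ := bound_coeff G
  have hFk : ∀ i j, TG g i j ≠ 0 → ∃ k, α k = i ∧ γ k = j := fun i j h => by
    rw [hTG] at h
    obtain ⟨k, -, hk⟩ := exists_of_coeff_FT c α γ h
    exact ⟨k, hk⟩
  have hsuppT : ∀ i j, TG g i j ≠ 0 → i + j ≤ N + 1 + 1 := fun i j h => by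
    obtain ⟨k, h1, h2⟩ := hFk i j h
    have := hdeg k
    omega
  have hsupp : ∀ i j, g i j ≠ 0 → i + j ≤ N + 1 := fun i j h =>
    supp_of_TG (fun i j h => (hM i j h).1) hsuppT h
  -- no monomial cancels
  have hnc : ∀ k, TG g (α k) (γ k) ≠ 0 := by
    intro k h0
    rw [hTG, hF, coeff_FT, ← Finset.sum_filter] at h0
    set T := Finset.univ.filter (fun k' => α k' = α k ∧ γ k' = γ k) with hT
    have hT0 : ∑ k' ∈ T, C (c k') * X ^ α k' * (-1 - X) ^ γ k' = (0 : ℚ[X]) := by
      have : ∀ k' ∈ T, C (c k') * X ^ α k' * (-1 - X) ^ γ k' =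
          C (c k') * (X ^ α k * (-1 - X) ^ γ k : ℚ[X]) := fun k' hk' => by
        rw [hT, Finset.mem_filter] at hk'
        rw [hk'.2.1, hk'.2.2, mul_assoc]
      rw [Finset.sum_congr rfl this, ← Finset.sum_mul, ← map_sum, h0, map_zero, zero_mul]
    have hTu : T = univ := by
      by_contra hne
      exact hsub T ⟨k, by rw [hT, Finset.mem_filter]; exact ⟨Finset.mem_univ k, rfl, rfl⟩⟩ hne hT0
    have hall : ∀ k', α k' = α k ∧ γ k' = γ k := fun k' => by
      have := Finset.mem_univ k'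
      rw [← hTu, hT, Finset.mem_filter] at this
      exact this.2
    obtain ⟨k1, h1⟩ := ha
    obtain ⟨k2, h2⟩ := hb
    obtain ⟨k3, h3⟩ := hc
    have e1 := hall k1
    have e2 := hall k2
    have e3 := hall k3
    have e4 := hdeg k2
    omega
  have hx : ∃ j, g 0 j ≠ 0 := by
    obtain ⟨k, hk⟩ := ha
    have h := hnc k
    rw [hk] at h
    obtain ⟨p, hp, hne⟩ := exists_tri_of_TG h
    have : p.1 = 0 := by
      rcases hp with rfl | ⟨h1, -⟩ | ⟨-, rfl⟩
      · rfl
      · omega
      · rfl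
    rw [this] at hne
    exact ⟨p.2, hne⟩
  have hy : ∃ i, g i 0 ≠ 0 := by
    obtain ⟨k, hk⟩ := hc
    have h := hnc k
    rw [hk] at h
    obtain ⟨p, hp, hne⟩ := exists_tri_of_TG h
    have : p.2 = 0 := by
      rcases hp with rfl | ⟨-, rfl⟩ | ⟨h1, -⟩
      · rfl
      · rfl
      · omega
    rw [this] at hne
    exact ⟨p.1, hne⟩
  have hz : ∃ i j, i + j = N + 1 ∧ g i j ≠ 0 := by
    obtain ⟨k, hk⟩ := hb
    have hd := hdeg k
    obtain ⟨p, hp, hne⟩ := exists_tri_of_TG (hnc k)
    have hs := hsupp _ _ hne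
    refine ⟨p.1, p.2, ?_, hne⟩
    rcases hp with rfl | ⟨h1, rfl⟩ | ⟨h1, rfl⟩
    · simp only at hs ⊢
      omega
    · simp only at hs ⊢
      omega
    · simp only at hs ⊢
      omega
  have hconn : ∀ p q : ℕ × ℕ, g p.1 p.2 ≠ 0 → g q.1 q.2 ≠ 0 →
      Conn (fun p => g p.1 p.2 ≠ 0) p q := by
    intro p q hp hq
    by_contra hpq
    set A : ℕ × ℕ → Prop := fun u => g u.1 u.2 ≠ 0 ∧ Conn (fun p => g p.1 p.2 ≠ 0) p u with hA
    set gA : ℕ → ℕ → ℚ := fun i j => if A (i, j) then g i j else 0 with hgA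
    set gB : ℕ → ℕ → ℚ := fun i j => if A (i, j) then 0 else g i j with hgB
    have hstep : ∀ i j u v, tri i j u → tri i j v → A u → g v.1 v.2 ≠ 0 → A v :=
      fun i j u v hu hv hAu hv0 => ⟨hv0, hAu.2.tail ⟨tri_adj hu hv, hv0⟩⟩
    have cl1 : ∀ i j u, tri i j u → A u → TG gA i j = TG g i j := by
      intro i j u hu hAu
      refine TG_congr fun v hv => ?_
      by_cases hv0 : g v.1 v.2 = 0
      · simp only [hgA]
        split_ifs
        · rfl
        · exact hv0.symm
      · simp only [hgA]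
        rw [if_pos (hstep i j u v hu hv hAu hv0)]
    have cl2 : ∀ i j, (∀ u, tri i j u → ¬ A u) → TG gA i j = 0 := by
      intro i j h
      rw [TG_congr (G' := fun _ _ => 0)]
      · exact TG_congr_zero (fun _ _ => rfl) i j
      · intro v hv
        simp only [hgA]
        rw [if_neg (h v hv)]
    have cl3 : ∀ i j, (∀ u, tri i j u → ¬ A u) → TG gB i j = TG g i j := by
      intro i j h
      refine TG_congr fun v hv => ?_
      simp only [hgB]
      rw [if_neg (h v hv)]
    have hMA : ∀ i j, gA i j ≠ 0 → i < M ∧ j < M := fun i j h => by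
      apply hM i j
      intro h0
      apply h
      simp only [hgA]
      split_ifs
      · exact h0
      · rfl
    have hMB : ∀ i j, gB i j ≠ 0 → i < M := fun i j h => by
      refine (hM i j ?_).1
      intro h0
      apply h
      simp only [hgB]
      split_ifs
      · rfl
      · exact h0
    set T := Finset.univ.filter (fun k => ∃ u, tri (α k) (γ k) u ∧ A u) with hT
    have hFT : FT c α γ T = (X + C (1 + X)) * mk M gA := by
      ext j i
      rw [coeff_mul_TG]
      have e : (fun i j => ((mk M gA).coeff j).coeff i) = gA := by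
        funext i j
        exact coeff_mk M gA hMA i j
      rw [e, coeff_FT]
      by_cases h : ∃ u, tri i j u ∧ A u
      · obtain ⟨u, hu, hAu⟩ := h
        rw [cl1 i j u hu hAu, hTG, hF, coeff_FT, hT, Finset.sum_filter]
        refine Finset.sum_congr rfl fun k _ => ?_
        by_cases hk : α k = i ∧ γ k = j
        · rw [if_pos (by rw [hk.1, hk.2]; exact ⟨u, hu, hAu⟩)]
        · rw [if_neg hk]
          split_ifs <;> rfl
      · rw [cl2 i j (fun u hu hAu => h ⟨u, hu, hAu⟩)]
        refine Finset.sum_eq_zero fun k hk => ?_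
        rw [hT, Finset.mem_filter] at hk
        rw [if_neg]
        rintro ⟨h1, h2⟩
        rw [h1, h2] at hk
        exact h hk.2
    have hT0 : ∑ k ∈ T, C (c k) * X ^ α k * (-1 - X) ^ γ k = 0 := by
      rw [← eval_FT, hFT, eval_mul, eval_add, eval_X, eval_C]
      ring
    -- `T` is not empty
    have hTne : T.Nonempty := by
      have hp' : gA p.1 p.2 ≠ 0 := by
        simp only [hgA]
        rw [if_pos (show A (p.1, p.2) from ⟨hp, Relation.ReflTransGen.refl⟩)]
        exact hp
      obtain ⟨i, j, hij⟩ := exists_TG_of_ne (fun i j h => (hMA i j h).1) hp'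
      have : ∃ u, tri i j u ∧ A u := by
        by_contra h
        exact hij (cl2 i j (fun u hu hAu => h ⟨u, hu, hAu⟩))
      obtain ⟨u, hu, hAu⟩ := this
      rw [cl1 i j u hu hAu] at hij
      obtain ⟨k, h1, h2⟩ := hFk i j hij
      refine ⟨k, ?_⟩
      rw [hT, Finset.mem_filter]
      exact ⟨Finset.mem_univ k, u, by rw [h1, h2]; exact hu, hAu⟩
    -- `T` is not everything
    have hTnu : T ≠ univ := by
      intro hTu
      have hq' : gB q.1 q.2 ≠ 0 := by
        simp only [hgB]
        rw [if_neg (show ¬ A (q.1, q.2) from fun h => hpq h.2)]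
        exact hq
      obtain ⟨i, j, hij⟩ := exists_TG_of_ne hMB hq'
      obtain ⟨v, hv, hv0⟩ := exists_tri_of_TG hij
      have hvA : ¬ A v := fun h => hv0 (by simp only [hgB]; rw [if_pos h])
      have hvg : g v.1 v.2 ≠ 0 := fun h => hv0 (by
        simp only [hgB]
        split_ifs
        · rfl
        · exact h)
      have hno : ∀ u, tri i j u → ¬ A u := fun u hu hAu => hvA (hstep i j u v hu hv hAu hvg)
      rw [cl3 i j hno] at hij
      obtain ⟨k, h1, h2⟩ := hFk i j hij
      have hk : k ∈ T := by rw [hTu]; exact Finset.mem_univ k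
      rw [hT, Finset.mem_filter, h1, h2] at hk
      obtain ⟨-, u, hu, hAu⟩ := hk
      exact hno u hu hAu
    exact hsub T hTne hTnu hT0
  have h1 := comb N g hsupp hx hy hz hconn
  have h2 := S_ind_le α γ (N + 3) (TG g) hFk
  omega

end Pool.Agent.H72.NT
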