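import Pool.Agent.H72.NT.Comb

/-!
# Relations between the products `X ^ α (-1 - X) ^ γ` over the rational numbers
-/

set_option autoImplicit false

namespace Pool.Agent.H72.NT

open Finset Polynomial

/-- coefficients of `(Y + 1 + X) G` -/
lemma coeff_mul_TG (G : ℚ[X][X]) (i j : ℕ) :
    (((X + C (1 + X)) * G).coeff j).coeff i = TG (fun i j => (G.coeff j).coeff i) i j := by
  rcases j with _ | j
  · rcases i with _ | i
    · simp [TG, add_mul]
    · simp [TG, add_mul]
  · rcases i with _ | i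
    · simp only [add_mul, coeff_add, coeff_X_mul, coeff_C_mul, one_mul, coeff_X_mul_zero, add_zero, TG]
      ring
    · simp only [add_mul, coeff_add, coeff_X_mul, coeff_C_mul, one_mul, TG]
      ring

/-- the polynomial with given coefficients in a box -/
noncomputable def mk (M : ℕ) (g : ℕ → ℕ → ℚ) : ℚ[X][X] :=
  ∑ j ∈ range M, monomial j (∑ i ∈ range M, monomial i (g i j))

lemma coeff_mk (M : ℕ) (g : ℕ → ℕ → ℚ) (hg : ∀ i j, g i j ≠ 0 → i < M ∧ j < M) (i j : ℕ) :
    ((mk M g).coeff j).coeff i = g i j := by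
  have h1 : (mk M g).coeff j = if j ∈ range M then ∑ i ∈ range M, monomial i (g i j) else 0 := by
    unfold mk
    rw [finsetSum_coeff]
    simp only [coeff_monomial]
    rw [Finset.sum_ite_eq' (range M) j]
  have h2 : (∑ i ∈ range M, monomial i (g i j) : ℚ[X]).coeff i = if i ∈ range M then g i j else 0 := by
    rw [finsetSum_coeff]
    simp only [coeff_monomial]
    rw [Finset.sum_ite_eq' (range M) i]
  rw [h1]
  by_cases hj : j < M
  · rw [if_pos (Finset.mem_range.2 hj), h2]
    by_cases hi : i < M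
    · rw [if_pos (Finset.mem_range.2 hi)]
    · rw [if_neg (by simpa using hi)]
      by_contra h
      exact hi (hg i j (Ne.symm h)).1
  · rw [if_neg (by simpa using hj), coeff_zero]
    by_contra h
    exact hj (hg i j (Ne.symm h)).2

lemma TG_congr_zero {G : ℕ → ℕ → ℚ} (h : ∀ i j, G i j = 0) (i j : ℕ) : TG G i j = 0 := by
  rcases i with _ | i <;> rcases j with _ | j <;> simp [TG, h]

/-- the triangle of `(i, j)` -/
def tri (i j : ℕ) (p : ℕ × ℕ) : Prop :=
  p = (i, j) ∨ (1 ≤ i ∧ p = (i - 1, j)) ∨ (1 ≤ j ∧ p = (i, j - 1))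

lemma tri_adj {i j : ℕ} {p q : ℕ × ℕ} (hp : tri i j p) (hq : tri i j q) : adj p q := by
  obtain ⟨p1, p2⟩ := p
  obtain ⟨q1, q2⟩ := q
  unfold tri at hp hq
  unfold adj inD
  simp only [Prod.mk.injEq, Prod.exists] at *
  rcases hp with ⟨a, b⟩ | ⟨h, a, b⟩ | ⟨h, a, b⟩ <;> rcases hq with ⟨c, d⟩ | ⟨h', c, d⟩ | ⟨h', c, d⟩
  · exact ⟨i, j, by omega, by omega⟩
  · exact ⟨i - 1, j, by omega, by omega⟩
  · exact ⟨i, j - 1, by omega, by omega⟩
  · exact ⟨i - 1, j, by omega, by omega⟩
  · exact ⟨i - 1, j, by omega, by omega⟩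
  · exact ⟨i - 1, j - 1, by omega, by omega⟩
  · exact ⟨i, j - 1, by omega, by omega⟩
  · exact ⟨i - 1, j - 1, by omega, by omega⟩
  · exact ⟨i, j - 1, by omega, by omega⟩

/-- `TG` depends on the values in the triangle only -/
lemma TG_congr {G G' : ℕ → ℕ → ℚ} {i j : ℕ} (h : ∀ p, tri i j p → G p.1 p.2 = G' p.1 p.2) :
    TG G i j = TG G' i j := by
  rcases i with _ | i <;> rcases j with _ | j
  · exact h (0, 0) (Or.inl rfl)
  · simp only [TG]
    rw [h (0, j + 1) (Or.inl rfl), h (0, j) (Or.inr (Or.inr ⟨by omega, by simp⟩))]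
  · simp only [TG]
    rw [h (i + 1, 0) (Or.inl rfl), h (i, 0) (Or.inr (Or.inl ⟨by omega, by simp⟩))]
  · simp only [TG]
    rw [h (i + 1, j + 1) (Or.inl rfl), h (i, j + 1) (Or.inr (Or.inl ⟨by omega, by simp⟩)),
      h (i + 1, j) (Or.inr (Or.inr ⟨by omega, by simp⟩))]

lemma exists_tri_of_TG {G : ℕ → ℕ → ℚ} {i j : ℕ} (h : TG G i j ≠ 0) :
    ∃ p, tri i j p ∧ G p.1 p.2 ≠ 0 := by
  by_contra hc
  push Not at hc
  apply h
  rw [TG_congr (G' := fun _ _ => 0) hc]
  exact TG_congr_zero (fun _ _ => rfl) i j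

/-- a function with finite support and `TG G = 0` is zero; more precisely: a nonzero value of `G` gives a
nonzero value of `TG G` -/
lemma exists_TG_of_ne {M : ℕ} {G : ℕ → ℕ → ℚ} (hM : ∀ i j, G i j ≠ 0 → i < M) {i j : ℕ}
    (h : G i j ≠ 0) : ∃ i' j', TG G i' j' ≠ 0 := by
  by_contra hc
  push Not at hc
  have key : ∀ d : ℕ, ∃ j', G (i + d) j' ≠ 0 := by
    intro d
    induction d with
    | zero => exact ⟨j, h⟩
    | succ d ih =>
      obtain ⟨j', hj'⟩ := ih
      rcases j' with _ | j'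
      · have := hc (i + d + 1) 0
        simp only [TG] at this
        exact ⟨0, fun h0 => hj' (by rw [← add_assoc] at h0; rw [h0, zero_add] at this; exact this)⟩
      · have := hc (i + d + 1) (j' + 1)
        simp only [TG] at this
        by_cases h1 : G (i + d + 1) (j' + 1) = 0
        · refine ⟨j', fun h2 => hj' ?_⟩
          rw [← add_assoc] at h2
          rw [h1, h2, zero_add, add_zero] at this
          exact this
        · exact ⟨j' + 1, h1⟩
  obtain ⟨j', hj'⟩ := key M
  have := hM _ _ hj'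
  omega

/-- the support of `G` -/
lemma supp_of_TG {M m : ℕ} {G : ℕ → ℕ → ℚ} (hM : ∀ i j, G i j ≠ 0 → i < M)
    (hT : ∀ i j, TG G i j ≠ 0 → i + j ≤ m + 1) {i j : ℕ} (h : G i j ≠ 0) : i + j ≤ m := by
  by_contra hlt
  have key : ∀ d : ℕ, ∃ j', G (i + d) j' ≠ 0 ∧ m < i + d + j' := by
    intro d
    induction d with
    | zero => exact ⟨j, h, by omega⟩
    | succ d ih =>
      obtain ⟨j', hj', hm⟩ := ih
      have h0 : TG G (i + d + 1) j' = 0 := by
        by_contra h1
        have := hT _ _ h1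
        omega
      rcases j' with _ | j'
      · simp only [TG] at h0
        exact ⟨0, fun h1 => hj' (by rw [← add_assoc] at h1; rw [h1, zero_add] at h0; exact h0), by omega⟩
      · simp only [TG] at h0
        by_cases h1 : G (i + d + 1) (j' + 1) = 0
        · refine ⟨j', fun h2 => hj' ?_, by omega⟩
          rw [← add_assoc] at h2
          rw [h1, h2, zero_add, add_zero] at h0
          exact h0
        · exact ⟨j' + 1, h1, by omega⟩
  obtain ⟨j', hj', -⟩ := key M
  have := hM _ _ hj'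
  omega

end Pool.Agent.H72.NT
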