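import Pool.Agent.H72.NT.IntR
import Pool.Graph.R_pool_sql_team_seeded_2aa45f1a.Q39.NT.Ident

/-!
# The bound is attained for every number of terms and every number of zeros
-/

set_option autoImplicit false

namespace Pool.Agent.H72.NT

open Finset Polynomial

variable {K : Type*} [Field K] [CharZero K]

/-- the terms of the identity for `x ^ m + y ^ m`, with `x = X ^ d`, `y = 1 - X ^ d` -/
noncomputable def ex (k d : ℕ) (i : Fin (k + 3)) : K[X] :=
  ((Pool.Agent.Q39.NT.term k i).map (algebraMap ℚ K)).comp (X ^ d)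

lemma sum_ex (k d : ℕ) (T : Finset (Fin (k + 3))) :
    ∑ i ∈ T, (ex k d i : K[X]) =
      ((∑ i ∈ T, Pool.Agent.Q39.NT.term k i).map (algebraMap ℚ K)).comp (X ^ d) := by
  rw [Polynomial.map_sum, Polynomial.sum_comp]
  rfl

lemma sum_term (k : ℕ) : ∑ i, Pool.Agent.Q39.NT.term k i = 0 := by
  rw [Fin.sum_univ_succ, Fin.sum_univ_succ]
  simp only [Pool.Agent.Q39.NT.term, Fin.cons_zero, Fin.cons_succ]
  rw [Finset.sum_neg_distrib, ← Pool.Agent.Q39.NT.powsum_poly]
  ring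

lemma sub_term (k : ℕ) (T : Finset (Fin (k + 3))) (hT : T.Nonempty) (hT' : T ≠ univ) :
    ∑ i ∈ T, Pool.Agent.Q39.NT.term k i ≠ 0 := by
  classical
  intro h
  have h1 := Pool.Agent.Q39.NT.relation k (fun i => if i ∈ T then 1 else 0) (by
    rw [← h]
    simp [Finset.sum_ite_mem])
  obtain ⟨i, hi⟩ := hT
  have h2 := h1 i
  simp only [hi, if_true] at h2
  apply hT'
  ext j
  have h3 := h1 j
  rw [← h2] at h3
  simp only [Finset.mem_univ, iff_true]
  by_contra hj
  rw [if_neg hj] at h3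
  norm_num at h3

lemma ex_zero (k d : ℕ) : (ex k d 0 : K[X]) = (X ^ d) ^ (2 * k + 1) := by
  simp [ex, Pool.Agent.Q39.NT.term]

lemma ex_one (k d : ℕ) : (ex k d 1 : K[X]) = (1 - X ^ d) ^ (2 * k + 1) := by
  have : (1 : Fin (k + 3)) = Fin.succ 0 := rfl
  rw [ex, Pool.Agent.Q39.NT.term, this, Fin.cons_succ, Fin.cons_zero]
  simp

lemma ex_succ (k d : ℕ) (j : Fin (k + 1)) : (ex k d j.succ.succ : K[X]) =
    C (-((-1) ^ (j : ℕ) * (Pool.Agent.Q39.NT.w (2 * k + 1) j : K))) * (X ^ d) ^ (j : ℕ) *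
      (1 - X ^ d) ^ (j : ℕ) := by
  rw [ex, Pool.Agent.Q39.NT.term, Fin.cons_succ, Fin.cons_succ]
  simp only [Polynomial.map_neg, Polynomial.map_mul, Polynomial.map_pow, Polynomial.map_one,
    map_natCast, Polynomial.map_natCast, Polynomial.map_sub, map_X, neg_comp, mul_comp, pow_comp,
    one_comp, natCast_comp, X_comp, sub_comp, C_neg, C_mul, C_pow, C_1]
  rw [mul_pow]
  ring

lemma ex_form (k d : ℕ) (i : Fin (k + 3)) : ∃ (c : K) (a b g : ℕ), a + b + g = 2 * k + 1 ∧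
    (ex k d i : K[X]) = C c * (X ^ d) ^ a * (1 - X ^ d) ^ b * (-1) ^ g := by
  refine Fin.cases ?_ (fun i => Fin.cases ?_ (fun j => ?_) i) i
  · exact ⟨1, 2 * k + 1, 0, 0, by omega, by rw [ex_zero]; simp⟩
  · refine ⟨1, 0, 2 * k + 1, 0, by omega, ?_⟩
    have : (Fin.succ 0 : Fin (k + 3)) = 1 := rfl
    rw [this, ex_one]
    simp
  · have hj := j.2
    refine ⟨(-1) ^ (j : ℕ) * (Pool.Agent.Q39.NT.w (2 * k + 1) j : K), j, j, 2 * k + 1 - 2 * j,
      by omega, ?_⟩
    rw [ex_succ]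
    have h1 : (-1 : K[X]) ^ (2 * k + 1 - 2 * (j : ℕ)) = -1 := by
      have : Odd (2 * k + 1 - 2 * (j : ℕ)) := ⟨k - j, by omega⟩
      exact this.neg_one_pow
    rw [h1, C_neg]
    ring

lemma root_ex {k d : ℕ} {i : Fin (k + 3)} {x : K} (h : (ex k d i : K[X]).IsRoot x) :
    x ^ d = 0 ∨ x ^ d = 1 := by
  revert h
  refine Fin.cases ?_ (fun i => Fin.cases ?_ (fun j => ?_) i) i
  · intro h
    left
    rw [ex_zero, IsRoot.def] at h
    simpa using h
  · intro h
    right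
    have e : (Fin.succ 0 : Fin (k + 3)) = 1 := rfl
    rw [e, ex_one, IsRoot.def] at h
    simp only [eval_pow, eval_sub, eval_one, eval_X] at h
    have := pow_eq_zero_iff (by omega : 2 * k + 1 ≠ 0) |>.1 h
    exact (sub_eq_zero.1 this).symm
  · intro h
    rw [ex_succ, IsRoot.def] at h
    simp only [eval_mul, eval_pow, eval_sub, eval_one, eval_X, eval_C] at h
    have hw : -((-1) ^ (j : ℕ) * (Pool.Agent.Q39.NT.w (2 * k + 1) j : K)) ≠ 0 := by
      refine neg_ne_zero.2 (mul_ne_zero (pow_ne_zero _ (by norm_num)) ?_)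
      have := Pool.Agent.Q39.NT.w_pos (2 * k + 1) j (by have := j.2; omega)
      exact_mod_cast this.ne'
    rcases mul_eq_zero.1 h with h | h
    · rcases mul_eq_zero.1 h with h | h
      · exact absurd h hw
      · left
        exact eq_zero_of_pow_eq_zero h
    · right
      exact (sub_eq_zero.1 (eq_zero_of_pow_eq_zero h)).symm

lemma zeros_ex (k d : ℕ) :
    {x : K | ∃ i : Fin (k + 3), (ex k d i : K[X]).IsRoot x} = {x | x ^ d = 0 ∨ x ^ d = 1} := by
  ext x
  simp only [Set.mem_ofPred_eq]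
  constructor
  · rintro ⟨i, hi⟩
    exact root_ex hi
  · rintro (h | h)
    · exact ⟨0, by rw [ex_zero, IsRoot.def]; simp [h]⟩
    · exact ⟨1, by rw [ex_one, IsRoot.def]; simp [h]⟩

lemma card_zeros [IsAlgClosed K] (d : ℕ) (hd : 1 ≤ d) :
    {x : K | x ^ d = 0 ∨ x ^ d = 1}.ncard = d + 1 := by
  classical
  have : NeZero (d : K) := ⟨by exact_mod_cast (by omega : d ≠ 0)⟩
  obtain ⟨ζ, hζ⟩ := HasEnoughRootsOfUnity.exists_primitiveRoot K d
  have h1 : {x : K | x ^ d = 0 ∨ x ^ d = 1} = ↑(insert 0 (nthRootsFinset d (1 : K))) := by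
    ext x
    simp only [Set.mem_ofPred_eq, Finset.coe_insert, Set.mem_insert_iff, Finset.mem_coe,
      mem_nthRootsFinset (by omega : 0 < d)]
    constructor
    · rintro (h | h)
      · exact Or.inl (eq_zero_of_pow_eq_zero h)
      · exact Or.inr h
    · rintro (rfl | h)
      · exact Or.inl (zero_pow (by omega))
      · exact Or.inr h
  rw [h1, Set.ncard_coe_finset, Finset.card_insert_of_notMem, hζ.card_nthRootsFinset]
  rw [mem_nthRootsFinset (by omega : 0 < d), zero_pow (by omega)]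
  norm_num

theorem sharp [IsAlgClosed K] (n : ℕ) (hn : 3 ≤ n) (d : ℕ) (hd : 1 ≤ d) :
    ∃ f : Fin n → K[X], (¬ ∃ x, ∀ k, (f k).IsRoot x) ∧ ∑ k, f k = 0 ∧
      (∀ T : Finset (Fin n), T.Nonempty → T ≠ univ → ∑ k ∈ T, f k ≠ 0) ∧
      (∀ k, ∃ (c : K) (a b g : ℕ), a + b + g = 2 * n - 5 ∧
        f k = C c * (X ^ d) ^ a * (1 - X ^ d) ^ b * (-1) ^ g) ∧
      {x : K | ∃ k, (f k).IsRoot x}.ncard = d + 1 ∧ ∃ k, (f k).natDegree = (2 * n - 5) * d := by
  obtain ⟨k, rfl⟩ : ∃ k, n = k + 3 := ⟨n - 3, by omega⟩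
  have e : 2 * (k + 3) - 5 = 2 * k + 1 := by omega
  refine ⟨ex k d, ?_, ?_, ?_, ?_, ?_, 0, ?_⟩
  · rintro ⟨x, hx⟩
    have h0 := hx 0
    have h1 := hx 1
    rw [ex_zero, IsRoot.def] at h0
    rw [ex_one, IsRoot.def] at h1
    simp only [eval_pow, eval_X] at h0
    simp only [eval_pow, eval_sub, eval_one, eval_X] at h1
    have h2 := eq_zero_of_pow_eq_zero h0
    have h3 := eq_zero_of_pow_eq_zero h1
    rw [h2] at h3
    norm_num at h3
  · rw [sum_ex, sum_term, Polynomial.map_zero, zero_comp]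
  · intro T h1 h2 h0
    rw [sum_ex, comp_eq_zero_iff] at h0
    rcases h0 with h0 | ⟨-, h0⟩
    · rw [Polynomial.map_eq_zero] at h0
      exact sub_term k T h1 h2 h0
    · have h3 := congrArg natDegree h0
      rw [natDegree_X_pow, natDegree_C] at h3
      omega
  · intro i
    rw [e]
    exact ex_form k d i
  · rw [zeros_ex k d, card_zeros d hd]
  · rw [ex_zero, e, ← pow_mul, natDegree_X_pow, mul_comm]

end Pool.Agent.H72.NT
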