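import Mathlib

/-!
# Sums over triangles of lattice points, and the counting of monochromatic edges
-/

set_option autoImplicit false

namespace Pool.Agent.H72.NT

open Finset

/-- the sum of `h i j` over all `i + j < L` -/
def S (L : ℕ) (h : ℕ → ℕ → ℤ) : ℤ := ∑ i ∈ range L, ∑ j ∈ range (L - i), h i j

lemma S_a (L : ℕ) (h : ℕ → ℕ → ℤ) :
    S (L + 1) h = ∑ i ∈ range (L + 1), h i 0 + S L (fun i j => h i (j + 1)) := by
  unfold S
  have h1 : ∑ i ∈ range (L + 1), ∑ j ∈ range (L + 1 - i), h i j =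
      ∑ i ∈ range (L + 1), (h i 0 + ∑ j ∈ range (L - i), h i (j + 1)) := by
    refine Finset.sum_congr rfl fun i hi => ?_
    have hi' : i ≤ L := by
      have := Finset.mem_range.1 hi
      omega
    rw [show L + 1 - i = (L - i) + 1 by omega, Finset.sum_range_succ']
    ring
  rw [h1, Finset.sum_add_distrib]
  congr 1
  rw [Finset.sum_range_succ]
  simp

lemma S_b (L : ℕ) (h : ℕ → ℕ → ℤ) :
    S (L + 1) h = ∑ j ∈ range (L + 1), h 0 j + S L (fun i j => h (i + 1) j) := by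
  unfold S
  rw [Finset.sum_range_succ', add_comm]
  congr 1
  refine Finset.sum_congr rfl fun i _ => ?_
  rw [show L + 1 - (i + 1) = L - i by omega]

lemma S_c (L : ℕ) (h : ℕ → ℕ → ℤ) :
    S (L + 1) h = S L h + ∑ i ∈ range (L + 1), h i (L - i) := by
  unfold S
  have h1 : ∑ i ∈ range (L + 1), ∑ j ∈ range (L + 1 - i), h i j =
      ∑ i ∈ range (L + 1), (∑ j ∈ range (L - i), h i j + h i (L - i)) := by
    refine Finset.sum_congr rfl fun i hi => ?_
    have hi' : i ≤ L := by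
      have := Finset.mem_range.1 hi
      omega
    rw [show L + 1 - i = (L - i) + 1 by omega, Finset.sum_range_succ]
  rw [h1, Finset.sum_add_distrib]
  congr 1
  rw [Finset.sum_range_succ]
  simp

lemma S_add (L : ℕ) (h k : ℕ → ℕ → ℤ) :
    S L (fun i j => h i j + k i j) = S L h + S L k := by
  unfold S
  simp only [Finset.sum_add_distrib]

lemma S_mono (L : ℕ) (h k : ℕ → ℕ → ℤ) (hk : ∀ i j, i + j < L → h i j ≤ k i j) :
    S L h ≤ S L k := by
  unfold S
  refine Finset.sum_le_sum fun i hi => Finset.sum_le_sum fun j hj => hk i j ?_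
  have h1 := Finset.mem_range.1 hi
  have h2 := Finset.mem_range.1 hj
  omega

lemma S_mul (L : ℕ) (c : ℤ) (h : ℕ → ℕ → ℤ) :
    S L (fun i j => c * h i j) = c * S L h := by
  unfold S
  simp only [Finset.mul_sum]

lemma S_const (L : ℕ) (c : ℤ) : 2 * S L (fun _ _ => c) = c * (L * (L + 1)) := by
  induction L with
  | zero => simp [S]
  | succ L ih =>
    rw [S_c, mul_add, ih]
    simp only [Finset.sum_const, Finset.card_range, nsmul_eq_mul]
    push_cast
    ring

/-- **Counting monochromatic edges.** `s` is a colouring of the points of the triangle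
`i + j ≤ N + 1` by two colours. -/
theorem count (N : ℕ) (s φ : ℕ → ℕ → ℤ) (hs : ∀ i j, s i j = 1 ∨ s i j = -1)
    (hint : ∀ i j, i + j < N →
      s (i + 1) (j + 1) * s i (j + 1) + s (i + 1) (j + 1) * s (i + 1) j +
        s i (j + 1) * s (i + 1) j ≤ -1 + 4 * φ (i + 1) (j + 1))
    (h0 : ∀ i, i < N + 1 → s i 0 * s (i + 1) 0 ≤ -1 + 2 * φ (i + 1) 0)
    (h1 : ∀ j, j < N + 1 → s 0 j * s 0 (j + 1) ≤ -1 + 2 * φ 0 (j + 1))
    (h2 : ∀ i, i < N + 1 → s i (N - i + 1) * s (i + 1) (N - i) ≤ -1 + 2 * φ (i + 1) (N - i + 1)) :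
    (N + 1 : ℤ) ≤ 2 * S N (fun i j => φ (i + 1) (j + 1)) + ∑ i ∈ range (N + 1), φ (i + 1) 0 +
      ∑ j ∈ range (N + 1), φ 0 (j + 1) + ∑ i ∈ range (N + 1), φ (i + 1) (N - i + 1) := by
  have hlow : S (N + 1) (fun _ _ => -1) ≤
      S (N + 1) (fun i j => s i j * s (i + 1) j + (s i j * s i (j + 1) +
        s i (j + 1) * s (i + 1) j)) := by
    refine S_mono _ _ _ fun i j _ => ?_
    rcases hs i j with e1 | e1 <;> rcases hs (i + 1) j with e2 | e2 <;>
      rcases hs i (j + 1) with e3 | e3 <;> rw [e1, e2, e3] <;> norm_num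
  rw [S_add, S_add, S_a N (fun i j => s i j * s (i + 1) j),
    S_b N (fun i j => s i j * s i (j + 1)), S_c N (fun i j => s i (j + 1) * s (i + 1) j)] at hlow
  have hup : S N (fun i j => s i (j + 1) * s (i + 1) (j + 1) +
      (s (i + 1) j * s (i + 1) (j + 1) + s i (j + 1) * s (i + 1) j)) ≤
      S N (fun i j => -1 + 4 * φ (i + 1) (j + 1)) := by
    refine S_mono _ _ _ fun i j hij => ?_
    have := hint i j hij
    linarith [mul_comm (s i (j + 1)) (s (i + 1) (j + 1)),
      mul_comm (s (i + 1) j) (s (i + 1) (j + 1))]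
  rw [S_add, S_add, S_add, S_mul] at hup
  have e0 : ∑ i ∈ range (N + 1), s i 0 * s (i + 1) 0 ≤
      ∑ i ∈ range (N + 1), (-1 + 2 * φ (i + 1) 0) :=
    Finset.sum_le_sum fun i hi => h0 i (Finset.mem_range.1 hi)
  have e1 : ∑ i ∈ range (N + 1), s 0 i * s 0 (i + 1) ≤
      ∑ i ∈ range (N + 1), (-1 + 2 * φ 0 (i + 1)) :=
    Finset.sum_le_sum fun i hi => h1 i (Finset.mem_range.1 hi)
  have e2 : ∑ i ∈ range (N + 1), s i (N - i + 1) * s (i + 1) (N - i) ≤
      ∑ i ∈ range (N + 1), (-1 + 2 * φ (i + 1) (N - i + 1)) :=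
    Finset.sum_le_sum fun i hi => h2 i (Finset.mem_range.1 hi)
  rw [Finset.sum_add_distrib, ← Finset.mul_sum] at e0 e1 e2
  simp only [Finset.sum_const, Finset.card_range, nsmul_eq_mul] at e0 e1 e2
  push_cast at e0 e1 e2
  have c1 := S_const (N + 1) (-1)
  have c2 := S_const N (-1)
  push_cast at c1
  nlinarith

end Pool.Agent.H72.NT
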