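import Pool.Agent.H72.NT.Sharp
import Pool.Graph.R_pool_sql_team_seeded_2aa45f1a.Q39.NT.Adm

/-!
# Admissible tuples of integers for which the exponent is attained
(The tuple and the proof that it is admissible are taken from the library file `Q39.NT.Rec`.)
-/

set_option autoImplicit false

namespace Pool.Agent.H72.NT

open Finset Polynomial Pool.Agent.Q39.NT

/-- the tuple `a ^ m, b ^ m, ∓ w m j (a b) ^ j (a + b) ^ (m - 2 j)`, `m = 2 k + 1` -/
def tup (k : ℕ) (a b : ℤ) : Fin (k + 3) → ℤ :=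
  Fin.cons (a ^ (2 * k + 1)) (Fin.cons (b ^ (2 * k + 1)) (fun j : Fin (k + 1) =>
    -((-1) ^ (j : ℕ) * (w (2 * k + 1) j : ℤ) * (a * b) ^ (j : ℕ) *
      (a + b) ^ (2 * k + 1 - 2 * (j : ℕ)))))

lemma tup_sum (k : ℕ) (a b : ℤ) : ∑ i, tup k a b i = 0 := by
  rw [Fin.sum_univ_succ, Fin.sum_univ_succ]
  simp only [tup, Fin.cons_zero, Fin.cons_succ]
  rw [sum_neg_distrib, ← add_assoc, powsum a b (2 * k + 1) (k + 1) (by omega),
    ← Fin.sum_univ_eq_sum_range (fun j => (-1 : ℤ) ^ j * (w (2 * k + 1) j : ℤ) * (a * b) ^ j *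
      (a + b) ^ (2 * k + 1 - 2 * j))]
  ring

lemma tup_eval (k : ℕ) (a b : ℤ) (hc : ((a : ℚ) + b) ≠ 0) (i : Fin (k + 3)) :
    ((tup k a b i : ℤ) : ℚ) = ((a : ℚ) + b) ^ (2 * k + 1) *
      (term k i).eval ((a : ℚ) / (a + b)) := by
  have h1 : (1 : ℚ) - (a : ℚ) / (a + b) = b / (a + b) := by field_simp; ring
  refine Fin.cases ?_ (fun i => Fin.cases ?_ (fun j => ?_) i) i
  · simp only [tup, term, Fin.cons_zero, eval_pow, eval_X]
    push_cast
    rw [div_pow]
    field_simp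
  · simp only [tup, term, Fin.cons_zero, Fin.cons_succ, eval_pow, eval_sub, eval_one, eval_X]
    push_cast
    rw [h1, div_pow]
    field_simp
  · simp only [tup, term, Fin.cons_succ, eval_neg, eval_mul, eval_pow, eval_sub, eval_one, eval_X,
      eval_C]
    push_cast
    rw [h1]
    have h2 : ((a : ℚ) + b) ^ (2 * k + 1) =
        ((a : ℚ) + b) ^ (2 * k + 1 - 2 * (j : ℕ)) * (((a : ℚ) + b) ^ 2) ^ (j : ℕ) := by
      rw [← pow_mul, ← pow_add]
      congr 1
      have := j.2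
      omega
    have h3 : (a : ℚ) / (a + b) * (b / (a + b)) = a * b / ((a : ℚ) + b) ^ 2 := by
      field_simp
    rw [h3, h2, div_pow]
    field_simp

/-- the subsums are not zero as polynomials -/
lemma term_ne' (k : ℕ) (I : Finset (Fin (k + 3))) (hI : I.Nonempty) (hI2 : I ≠ univ) :
    ∑ i ∈ I, term k i ≠ 0 := by
  classical
  intro h
  have h1 := relation k (fun i => if i ∈ I then 1 else 0) (by
    rw [← h]
    simp only [ite_smul, one_smul, zero_smul]
    rw [sum_ite_mem, univ_inter])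
  obtain ⟨i, hi⟩ := hI
  have h2 := h1 i
  rw [if_pos hi] at h2
  apply hI2
  ext j
  refine ⟨fun _ => mem_univ _, fun _ => ?_⟩
  by_contra hj
  have h3 := h1 j
  rw [if_neg hj, ← h2] at h3
  norm_num at h3

lemma tup_adm (k : ℕ) : ∃ B : ℕ, ∀ a b : ℕ, 0 < a → 0 < b → Nat.Coprime a b → B < a + b →
    Adm (tup k a b) := by
  classical
  have hfin : (⋃ I : Finset (Fin (k + 3)), {t : ℚ | I.Nonempty ∧ I ≠ univ ∧
      (∑ i ∈ I, term k i).eval t = 0}).Finite := by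
    refine Set.finite_iUnion fun I => ?_
    by_cases h : I.Nonempty ∧ I ≠ univ
    · refine (Multiset.finite_toSet (∑ i ∈ I, term k i).roots).subset ?_
      rintro t ⟨h1, h2, h3⟩
      exact (mem_roots (term_ne' k I h1 h2)).2 h3
    · convert Set.finite_empty
      rw [Set.eq_empty_iff_forall_notMem]
      rintro t ⟨h1, h2, -⟩
      exact h ⟨h1, h2⟩
  obtain ⟨B, hB⟩ := (hfin.image fun t : ℚ => t.den).bddAbove
  refine ⟨B, fun a b ha hb hab hc => ⟨gcd_one fun d hd => ?_, tup_sum k a b, fun I h1 h2 h3 => ?_⟩⟩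
  · have h0 : d ∣ (a : ℤ) ^ (2 * k + 1) := by simpa [tup] using hd 0
    have h1 : d ∣ (b : ℤ) ^ (2 * k + 1) := by
      have := hd (Fin.succ 0)
      simpa only [tup, Fin.cons_succ, Fin.cons_zero] using this
    have h2 : IsCoprime ((a : ℤ) ^ (2 * k + 1)) ((b : ℤ) ^ (2 * k + 1)) :=
      (Nat.isCoprime_iff_coprime.2 hab).pow
    exact h2.isUnit_of_dvd' h0 h1
  · have hc0 : ((a : ℤ) : ℚ) + ((b : ℤ) : ℚ) ≠ 0 := by
      have : (0 : ℚ) < a := by exact_mod_cast ha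
      have : (0 : ℚ) < b := by exact_mod_cast hb
      push_cast
      positivity
    have h4 : ∑ i ∈ I, ((tup k a b i : ℤ) : ℚ) = 0 := by exact_mod_cast h3
    rw [sum_congr rfl fun i _ => tup_eval k a b hc0 i, ← mul_sum, ← eval_finsetSum] at h4
    rcases mul_eq_zero.1 h4 with h5 | h5
    · exact pow_ne_zero _ hc0 h5
    · have h6 := hB (Set.mem_image_of_mem _ (Set.mem_iUnion.2 ⟨I, h1, h2, h5⟩))
      have h7 : (((a : ℤ) : ℚ) / (((a + b : ℕ) : ℤ) : ℚ)).den = a + b := by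
        have := Rat.den_div_eq_of_coprime (a := (a : ℤ)) (b := ((a + b : ℕ) : ℤ))
          (by positivity) (by
            rw [Int.natAbs_natCast, Int.natAbs_natCast]
            exact (Nat.coprime_self_add_right (m := a) (n := b)).2 hab)
        exact_mod_cast this
      have h8 : ((a : ℤ) : ℚ) + ((b : ℤ) : ℚ) = (((a + b : ℕ) : ℤ) : ℚ) := by push_cast; ring
      rw [h8, h7] at h6
      omega


lemma tup_form (k : ℕ) (a b : ℤ) (i : Fin (k + 3)) : ∃ (e : ℤ) (α β γ : ℕ),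
    α + β + γ = 2 * k + 1 ∧ |e| ≤ (∑ j ∈ range (k + 1), w (2 * k + 1) j : ℕ) ∧
      tup k a b i = e * a ^ α * b ^ β * (-(a + b)) ^ γ := by
  have hpos : (1 : ℤ) ≤ (∑ j ∈ range (k + 1), w (2 * k + 1) j : ℕ) := by
    have h0 : w (2 * k + 1) 0 ≤ ∑ j ∈ range (k + 1), w (2 * k + 1) j :=
      Finset.single_le_sum (f := fun j => w (2 * k + 1) j) (fun _ _ => Nat.zero_le _)
        (Finset.mem_range.2 (by omega))
    have h1 := w_zero (2 * k + 1) (by omega)
    have : 1 ≤ ∑ j ∈ range (k + 1), w (2 * k + 1) j := by omega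
    exact_mod_cast this
  refine Fin.cases ?_ (fun i => Fin.cases ?_ (fun j => ?_) i) i
  · exact ⟨1, 2 * k + 1, 0, 0, by omega, by simpa using hpos, by simp [tup]⟩
  · exact ⟨1, 0, 2 * k + 1, 0, by omega, by simpa using hpos, by simp [tup]⟩
  · have hj := j.2
    refine ⟨(-1) ^ (j : ℕ) * (w (2 * k + 1) j : ℤ), j, j, 2 * k + 1 - 2 * j, by omega, ?_, ?_⟩
    · rw [abs_mul, abs_pow, abs_neg, abs_one, one_pow, one_mul, abs_of_nonneg (by positivity)]
      exact_mod_cast Finset.single_le_sum (f := fun j => w (2 * k + 1) j)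
        (fun _ _ => Nat.zero_le _) (Finset.mem_range.2 hj)
    · have h1 : (-(a + b)) ^ (2 * k + 1 - 2 * (j : ℕ)) = -(a + b) ^ (2 * k + 1 - 2 * (j : ℕ)) := by
        have : Odd (2 * k + 1 - 2 * (j : ℕ)) := ⟨k - j, by omega⟩
        exact this.neg_pow _
      simp only [tup, Fin.cons_succ]
      rw [h1, mul_pow]
      ring

lemma tup_max (k : ℕ) (a b : ℕ) : |tup k a b (Fin.succ (Fin.succ 0))| = ((a + b : ℕ) : ℤ) ^ (2 * k + 1) := by
  simp only [tup, Fin.cons_succ]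
  have h1 := w_zero (2 * k + 1) (by omega)
  simp only [Fin.val_zero, pow_zero, mul_zero, Nat.sub_zero, h1, Nat.cast_one, one_mul, mul_one]
  rw [abs_neg, abs_of_nonneg (by positivity)]
  push_cast
  rfl

theorem int_sharp (n : ℕ) (hn : 3 ≤ n) : ∃ H B : ℕ, ∀ a b : ℕ, 0 < a → 0 < b → Nat.Coprime a b →
    B < a + b → ∃ x : Fin n → ℤ, Adm x ∧
      (∀ k, ∃ (e : ℤ) (α β γ : ℕ), α + β + γ = 2 * n - 5 ∧ |e| ≤ H ∧
        x k = e * (a : ℤ) ^ α * (b : ℤ) ^ β * (-((a : ℤ) + b)) ^ γ) ∧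
      ∃ k, |x k| = ((a + b : ℕ) : ℤ) ^ (2 * n - 5) := by
  obtain ⟨k, rfl⟩ : ∃ k, n = k + 3 := ⟨n - 3, by omega⟩
  have e : 2 * (k + 3) - 5 = 2 * k + 1 := by omega
  obtain ⟨B, hB⟩ := tup_adm k
  refine ⟨∑ j ∈ range (k + 1), w (2 * k + 1) j, B, fun a b ha hb hab hc => ⟨tup k a b,
    hB a b ha hb hab hc, fun i => ?_, Fin.succ (Fin.succ 0), ?_⟩⟩
  · rw [e]
    exact tup_form k a b i
  · rw [e]
    exact tup_max k a b

end Pool.Agent.H72.NT
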