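import Pool.Agent.H72.NT.FF

/-!
# Sums of products of powers which vanish to a large order
-/

set_option autoImplicit false

namespace Pool.Agent.H72.NT

open Finset Polynomial

variable {K : Type*} [Field K]

/-- the differential operator which kills `X ^ a (-1 - X) ^ g` -/
noncomputable def LL (a g : ℕ) (P : K[X]) : K[X] :=
  X * (1 + X) * derivative P - (C (a : K) * (1 + X) + C (g : K) * X) * P

lemma LL_sum {ι : Type*} (a g : ℕ) (T : Finset ι) (P : ι → K[X]) :
    LL a g (∑ k ∈ T, P k) = ∑ k ∈ T, LL a g (P k) := by
  unfold LL
  rw [derivative_sum, Finset.mul_sum, Finset.mul_sum, Finset.sum_sub_distrib]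

lemma LL_add (a g : ℕ) (P Q : K[X]) : LL a g (P + Q) = LL a g P + LL a g Q := by
  unfold LL
  rw [derivative_add]
  ring

lemma X_mul_derivative_pow (a : ℕ) : X * derivative (X ^ a : K[X]) = C (a : K) * X ^ a := by
  rcases a with _ | a
  · simp
  · rw [derivative_X_pow, Nat.add_sub_cancel, pow_succ]
    ring

lemma derivative_pow' (g : ℕ) : (1 + X) * derivative ((-1 - X) ^ g : K[X]) = C (g : K) * (-1 - X) ^ g := by
  rcases g with _ | g
  · simp
  · rw [derivative_pow, Nat.add_sub_cancel]
    simp only [derivative_sub, derivative_neg, derivative_one, derivative_X]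
    rw [pow_succ]
    ring

lemma LL_term (a g a' g' : ℕ) (q : K[X]) :
    LL a g (q * (X ^ a' * (-1 - X) ^ g')) =
      (X * (1 + X) * derivative q + (C ((a' : K) - a) * (1 + X) + C ((g' : K) - g) * X) * q) *
        (X ^ a' * (-1 - X) ^ g') := by
  unfold LL
  rw [derivative_mul, derivative_mul]
  have h1 := X_mul_derivative_pow (K := K) a'
  have h2 := derivative_pow' (K := K) g'
  rw [C_sub, C_sub]
  linear_combination (1 + X) * q * (-1 - X) ^ g' * h1 + X * q * X ^ a' * h2

lemma LL_self (a g : ℕ) (q : K[X]) :
    LL a g (q * (X ^ a * (-1 - X) ^ g)) = (-derivative q) * (X ^ (a + 1) * (-1 - X) ^ (g + 1)) := by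
  rw [LL_term, sub_self, sub_self, C_0]
  ring

lemma dvd_LL {a g N : ℕ} {P : K[X]} (h : X ^ N ∣ P) : X ^ N ∣ LL a g P := by
  obtain ⟨U, rfl⟩ := h
  unfold LL
  rw [derivative_mul]
  have h1 := X_mul_derivative_pow (K := K) N
  refine ⟨(1 + X) * (C (N : K) * U + X * derivative U) - (C (a : K) * (1 + X) + C (g : K) * X) * U, ?_⟩
  linear_combination (1 + X) * U * h1

/-- a nonzero polynomial which is killed has order `a` at zero -/
lemma le_of_LL_eq_zero [CharZero K] {a g N : ℕ} {P : K[X]} (hP : P ≠ 0) (h : X ^ N ∣ P)
    (h0 : LL a g P = 0) : N ≤ a := by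
  set M := P.natTrailingDegree with hM
  have hMN : N ≤ M := by
    rw [hM]
    by_contra hlt
    push Not at hlt
    have h1 := (X_pow_dvd_iff.1 h) _ hlt
    have h2 : P.trailingCoeff = 0 := h1
    exact hP (trailingCoeff_eq_zero.1 h2)
  obtain ⟨U, hU⟩ : X ^ M ∣ P := X_pow_dvd_iff.2 fun d hd => coeff_eq_zero_of_lt_natTrailingDegree hd
  have hU0 : U.coeff 0 ≠ 0 := by
    have h1 : P.trailingCoeff ≠ 0 := fun h => hP (trailingCoeff_eq_zero.1 h)
    have h2 : P.trailingCoeff = U.coeff 0 := by
      rw [trailingCoeff, ← hM]
      conv_lhs => rw [hU]
      have := coeff_X_pow_mul U M 0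
      rw [zero_add] at this
      exact this
    rwa [h2] at h1
  have h1 : X ^ M * ((1 + X) * (C (M : K) * U + X * derivative U) -
      (C (a : K) * (1 + X) + C (g : K) * X) * U) = 0 := by
    rw [← h0, hU]
    unfold LL
    rw [derivative_mul]
    have h1 := X_mul_derivative_pow (K := K) M
    linear_combination (-(1 + X) * U) * h1
  have h2 := (mul_eq_zero.1 h1).resolve_left (pow_ne_zero _ X_ne_zero)
  have h3 := congrArg (fun Q => Polynomial.eval 0 Q) h2
  simp only [eval_sub, eval_mul, eval_add, eval_one, eval_X, eval_C, eval_zero, add_zero, one_mul,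
    zero_mul, mul_zero, mul_one] at h3
  rw [← coeff_zero_eq_eval_zero, ← sub_mul] at h3
  have h4 : (M : K) - a = 0 := (mul_eq_zero.1 h3).resolve_right hU0
  have h5 : M = a := by
    have := sub_eq_zero.1 h4
    exact_mod_cast this
  omega

theorem vanish [CharZero K] {ι : Type*} [DecidableEq ι] (T : Finset ι) :
    ∀ (d A N : ℕ) (α γ : ι → ℕ) (q : ι → K[X]), (∀ k ∈ T, α k ≤ A) → (∀ k ∈ T, (q k).degree < d) →
      ∑ k ∈ T, q k * (X ^ α k * (-1 - X) ^ γ k) ≠ 0 →
      X ^ N ∣ ∑ k ∈ T, q k * (X ^ α k * (-1 - X) ^ γ k) → N ≤ A + d * (2 ^ T.card - 1) := by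
  induction T using Finset.induction_on with
  | empty =>
    intro d A N α γ q _ _ h
    exact absurd Finset.sum_empty h
  | insert k0 T hk0 ih =>
    -- induction on the degree of the coefficient of the new term
    have key : ∀ (e d A N : ℕ) (α γ : ι → ℕ) (q : ι → K[X]), (∀ k ∈ insert k0 T, α k ≤ A) →
        (∀ k ∈ T, (q k).degree < d) → (q k0).degree < e →
        ∑ k ∈ insert k0 T, q k * (X ^ α k * (-1 - X) ^ γ k) ≠ 0 →
        X ^ N ∣ ∑ k ∈ insert k0 T, q k * (X ^ α k * (-1 - X) ^ γ k) →
        N ≤ A + e + (d + e) * (2 ^ T.card - 1) := by
      intro e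
      induction e with
      | zero =>
        intro d A N α γ q hα hq hq0 hne hdvd
        have h0 : q k0 = 0 := degree_eq_bot.1 (Nat.WithBot.lt_zero_iff.1 (by exact_mod_cast hq0))
        rw [Finset.sum_insert hk0, h0, zero_mul, zero_add] at hne hdvd
        exact ih d A N α γ q (fun k hk => hα k (Finset.mem_insert_of_mem hk)) hq hne hdvd
      | succ e ihe =>
        intro d A N α γ q hα hq hq0 hne hdvd
        by_cases hL : LL (α k0) (γ k0) (∑ k ∈ insert k0 T, q k * (X ^ α k * (-1 - X) ^ γ k)) = 0
        · have h1 := le_of_LL_eq_zero hne hdvd hL
          have h2 := hα k0 (Finset.mem_insert_self _ _)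
          have : 0 ≤ (d + (e + 1)) * (2 ^ T.card - 1) := Nat.zero_le _
          omega
        · have hdvd' := dvd_LL (a := α k0) (g := γ k0) hdvd
          set q' : ι → K[X] := fun k => if k = k0 then -derivative (q k0) else
            X * (1 + X) * derivative (q k) +
              (C ((α k : K) - α k0) * (1 + X) + C ((γ k : K) - γ k0) * X) * q k with hq'
          set α' : ι → ℕ := fun k => if k = k0 then α k0 + 1 else α k with hα'
          set γ' : ι → ℕ := fun k => if k = k0 then γ k0 + 1 else γ k with hγ'
          have heq : LL (α k0) (γ k0) (∑ k ∈ insert k0 T, q k * (X ^ α k * (-1 - X) ^ γ k)) =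
              ∑ k ∈ insert k0 T, q' k * (X ^ α' k * (-1 - X) ^ γ' k) := by
            rw [LL_sum]
            refine Finset.sum_congr rfl fun k _ => ?_
            by_cases hk : k = k0
            · subst hk
              simp only [hq', hα', hγ', if_true]
              exact LL_self _ _ _
            · simp only [hq', hα', hγ', hk, if_false]
              exact LL_term _ _ _ _ _
          rw [heq] at hdvd' hL
          have h1 := ihe (d + 1) (A + 1) N α' γ' q' ?_ ?_ ?_ hL hdvd'
          · have e1 : d + 1 + e = d + (e + 1) := by ring
            rw [e1] at h1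
            omega
          · intro k hk
            simp only [hα']
            split_ifs with h
            · have := hα k0 (Finset.mem_insert_self _ _)
              omega
            · have := hα k hk
              omega
          · intro k hk
            have hkk : k ≠ k0 := fun h => hk0 (h ▸ hk)
            simp only [hq', hkk, if_false]
            have hqk := hq k hk
            by_cases hz : q k = 0
            · rw [hz]
              simp only [derivative_zero, mul_zero, add_zero, degree_zero]
              exact WithBot.bot_lt_coe _
            · have hnd : (q k).natDegree < d := (natDegree_lt_iff_degree_lt hz).2 hqk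
              have hb : (X * (1 + X) * derivative (q k) +
                  (C ((α k : K) - α k0) * (1 + X) + C ((γ k : K) - γ k0) * X) * q k).natDegree ≤ d := by
                refine (natDegree_add_le _ _).trans (max_le ?_ ?_)
                · by_cases hd0 : (q k).natDegree = 0
                  · have : derivative (q k) = 0 := by
                      rw [eq_C_of_natDegree_eq_zero hd0, derivative_C]
                    rw [this, mul_zero, natDegree_zero]
                    exact Nat.zero_le _
                  · refine natDegree_mul_le.trans ?_
                    have h2 : (X * (1 + X) : K[X]).natDegree ≤ 2 := by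
                      refine natDegree_mul_le.trans ?_
                      have h3 : (1 + X : K[X]).natDegree ≤ 1 := by
                        refine (natDegree_add_le _ _).trans ?_
                        rw [natDegree_one, natDegree_X]
                        simp
                      have h4 := natDegree_X_le (R := K)
                      omega
                    have h3 : (derivative (q k)).natDegree ≤ (q k).natDegree - 1 :=
                      natDegree_derivative_le _
                    omega
                · refine natDegree_mul_le.trans ?_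
                  have h2 : (C ((α k : K) - α k0) * (1 + X) + C ((γ k : K) - γ k0) * X).natDegree ≤ 1 := by
                    refine (natDegree_add_le _ _).trans (max_le ?_ ?_)
                    · refine (natDegree_C_mul_le _ _).trans ((natDegree_add_le _ _).trans ?_)
                      rw [natDegree_one, natDegree_X]
                      simp
                    · exact (natDegree_C_mul_le _ _).trans natDegree_X_le
                  omega
              exact lt_of_le_of_lt (degree_le_natDegree) (by exact_mod_cast Nat.lt_succ_of_le hb)
          · simp only [hq', if_true]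
            rw [degree_neg]
            by_cases hz : derivative (q k0) = 0
            · rw [hz, degree_zero]
              exact WithBot.bot_lt_coe _
            · have hqz : q k0 ≠ 0 := fun h => hz (by rw [h, derivative_zero])
              have h2 : (derivative (q k0)).degree < (q k0).degree := degree_derivative_lt hqz
              rw [degree_eq_natDegree hz] at h2 ⊢
              rw [degree_eq_natDegree hqz] at h2 hq0
              have h3 : (derivative (q k0)).natDegree < (q k0).natDegree := by exact_mod_cast h2
              have h4 : (q k0).natDegree < e + 1 := by exact_mod_cast hq0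
              exact_mod_cast (by omega : (derivative (q k0)).natDegree < e)
    intro d A N α γ q hα hq hne hdvd
    have h1 := key d d A N α γ q hα (fun k hk => hq k (Finset.mem_insert_of_mem hk))
      (hq k0 (Finset.mem_insert_self _ _)) hne hdvd
    rw [Finset.card_insert_of_notMem hk0, pow_succ]
    have h2 : d * (2 ^ T.card * 2 - 1) = d + (d + d) * (2 ^ T.card - 1) := by
      have h3 : 1 ≤ 2 ^ T.card := Nat.one_le_two_pow
      obtain ⟨u, hu⟩ := Nat.exists_eq_add_of_le h3
      rw [hu, show (1 + u) * 2 - 1 = 1 + 2 * u by omega, show 1 + u - 1 = u by omega]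
      ring
    omega

end Pool.Agent.H72.NT
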